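import Pool.Agent.Lib.MP_4e1dcd_co.Defs

set_option autoImplicit false

namespace Pool.Agent.TrotterWinkler

open MeasureTheory Filter Topology

theorem fSpace_le {n k : ℕ} {Ω : Type} [MeasurableSpace Ω] (P : Measure Ω)
    (E : KSet n k → Set Ω) (A B : KSet n k) (h : IsShiftPair A B) :
    fSpace P E ≤ P.real (E A ∩ (E B)ᶜ) := by
  unfold fSpace
  exact ciInf_le ⟨0, by rintro _ ⟨p, rfl⟩; exact measureReal_nonneg⟩
    (⟨(A, B), h⟩ : {p : KSet n k × KSet n k // IsShiftPair p.1 p.2})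

theorem fSpace_nonneg {n k : ℕ} {Ω : Type} [MeasurableSpace Ω] (P : Measure Ω)
    (E : KSet n k → Set Ω) : 0 ≤ fSpace P E :=
  Real.iInf_nonneg fun _ => measureReal_nonneg

theorem fSpace_le_one {n k : ℕ} {Ω : Type} [MeasurableSpace Ω] (P : Measure Ω)
    [IsProbabilityMeasure P] (E : KSet n k → Set Ω) : fSpace P E ≤ 1 := by
  by_cases h : Nonempty {p : KSet n k × KSet n k // IsShiftPair p.1 p.2}
  · obtain ⟨p⟩ := h
    exact (fSpace_le P E p.1.1 p.1.2 p.2).trans measureReal_le_one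
  · rw [not_nonempty_iff] at h
    unfold fSpace
    rw [Real.iInf_of_isEmpty]
    exact zero_le_one

theorem bddAbove_set (n k : ℕ) : BddAbove {x : ℝ | ∃ (Ω : Type) (_ : MeasurableSpace Ω)
    (P : Measure Ω) (_ : IsProbabilityMeasure P) (E : KSet n k → Set Ω),
    (∀ S, MeasurableSet (E S)) ∧ x = fSpace P E} := by
  refine ⟨1, ?_⟩
  rintro _ ⟨Ω, _, P, _, E, _, rfl⟩
  exact fSpace_le_one P E

theorem le_f {n k : ℕ} {Ω : Type} [MeasurableSpace Ω] (P : Measure Ω) [IsProbabilityMeasure P]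
    (E : KSet n k → Set Ω) (hE : ∀ S, MeasurableSet (E S)) : fSpace P E ≤ f n k :=
  le_csSup (bddAbove_set n k) ⟨Ω, _, P, inferInstance, E, hE, rfl⟩

theorem f_nonneg (n k : ℕ) : 0 ≤ f n k := by
  have := le_f (n := n) (k := k) (Measure.dirac (0 : ℝ)) (fun _ => ∅) (fun _ => MeasurableSet.empty)
  exact (fSpace_nonneg _ _).trans this

theorem card_init {n k : ℕ} {s : Fin (k + 1) → Fin n} (hs : StrictMono s) :
    (Finset.univ.image (fun i : Fin k => s i.castSucc)).card = k := by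
  have h : Function.Injective (fun i : Fin k => s i.castSucc) :=
    hs.injective.comp (Fin.castSucc_injective k)
  rw [Finset.card_image_of_injective _ h, Finset.card_univ, Fintype.card_fin]

theorem card_tail {n k : ℕ} {s : Fin (k + 1) → Fin n} (hs : StrictMono s) :
    (Finset.univ.image (fun i : Fin k => s i.succ)).card = k := by
  have h : Function.Injective (fun i : Fin k => s i.succ) :=
    hs.injective.comp (Fin.succ_injective k)
  rw [Finset.card_image_of_injective _ h, Finset.card_univ, Fintype.card_fin]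

/-- To bound `f n k` from below, exhibit a probability space all of whose shift pairs are good. -/
theorem le_f_of_forall {n k : ℕ} (hk : k + 1 ≤ n) {Ω : Type} [MeasurableSpace Ω] (P : Measure Ω)
    [IsProbabilityMeasure P] (E : KSet n k → Set Ω) (hE : ∀ S, MeasurableSet (E S)) (r : ℝ)
    (h : ∀ A B, IsShiftPair A B → r ≤ P.real (E A ∩ (E B)ᶜ)) : r ≤ f n k := by
  refine le_trans ?_ (le_f P E hE)
  have : Nonempty {p : KSet n k × KSet n k // IsShiftPair p.1 p.2} := by
    let s : Fin (k + 1) → Fin n := Fin.castLE hk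
    have hs : StrictMono s := Fin.strictMono_castLE hk
    refine ⟨⟨(⟨Finset.univ.image (fun i : Fin k => s i.castSucc), ?_⟩,
      ⟨Finset.univ.image (fun i : Fin k => s i.succ), ?_⟩), s, hs, rfl, rfl⟩⟩
    · exact card_init hs
    · exact card_tail hs
  exact le_ciInf fun p => h p.1.1 p.1.2 p.2

/-- If `x < f n k` there is a probability space all of whose shift pairs have probability `> x`. -/
theorem exists_of_lt_f {n k : ℕ} {x : ℝ} (h : x < f n k) :
    ∃ (Ω : Type) (_ : MeasurableSpace Ω) (P : Measure Ω)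
    (_ : IsProbabilityMeasure P) (E : KSet n k → Set Ω),
    (∀ S, MeasurableSet (E S)) ∧ ∀ A B, IsShiftPair A B → x < P.real (E A ∩ (E B)ᶜ) := by
  have hne : {x : ℝ | ∃ (Ω : Type) (_ : MeasurableSpace Ω)
    (P : Measure Ω) (_ : IsProbabilityMeasure P) (E : KSet n k → Set Ω),
    (∀ S, MeasurableSet (E S)) ∧ x = fSpace P E}.Nonempty :=
    ⟨_, ℝ, _, Measure.dirac 0, inferInstance, fun _ => ∅, fun _ => MeasurableSet.empty, rfl⟩
  obtain ⟨_, ⟨Ω, hΩ, P, hP, E, hE, rfl⟩, hx⟩ := exists_lt_of_lt_csSup hne h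
  exact ⟨Ω, hΩ, P, hP, E, hE, fun A B hAB => hx.trans_le (fSpace_le P E A B hAB)⟩

/-- Restriction of the index set: `f (n+1) k ≤ f n k` for `n ≥ k+1`. -/
theorem f_succ_le {n k : ℕ} (hk : k + 1 ≤ n) : f (n + 1) k ≤ f n k := by
  refine csSup_le ⟨_, ℝ, inferInstance, Measure.dirac 0, inferInstance, fun _ => ∅,
    fun _ => MeasurableSet.empty, rfl⟩ ?_
  rintro _ ⟨Ω, _, P, _, E, hE, rfl⟩
  refine le_f_of_forall hk P
    (fun S => E ⟨S.1.map Fin.castSuccEmb, by rw [Finset.card_map]; exact S.2⟩)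
    (fun S => hE _) _ ?_
  rintro A B ⟨s, hs, hA, hB⟩
  refine fSpace_le P E _ _ ⟨fun i => (s i).castSucc, fun i j hij => ?_, ?_, ?_⟩
  · exact Fin.castSucc_lt_castSucc_iff.mpr (hs hij)
  · simp only [hA, Finset.map_eq_image, Finset.image_image]
    rfl
  · simp only [hB, Finset.map_eq_image, Finset.image_image]
    rfl

/-- The limit defining `f(k)` exists, and it is a lower bound of all `f(n,k)`, `n ≥ k+1`. -/
theorem exists_limit (k : ℕ) : ∃ L : ℝ, Tendsto (fun n => f n k) atTop (𝓝 L) ∧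
    (∀ n, k + 1 ≤ n → L ≤ f n k) ∧ ∀ r : ℝ, (∀ n, k + 1 ≤ n → r ≤ f n k) → r ≤ L := by
  have hanti : Antitone (fun m : ℕ => f (m + (k + 1)) k) := by
    refine antitone_nat_of_succ_le fun m => ?_
    have := f_succ_le (n := m + (k + 1)) (k := k) (by omega)
    rwa [show m + 1 + (k + 1) = m + (k + 1) + 1 by ring]
  have hbdd : BddBelow (Set.range (fun m : ℕ => f (m + (k + 1)) k)) :=
    ⟨0, by rintro _ ⟨m, rfl⟩; exact f_nonneg _ _⟩
  have ht := tendsto_atTop_ciInf hanti hbdd
  refine ⟨⨅ m : ℕ, f (m + (k + 1)) k, ?_, ?_, ?_⟩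
  · exact (tendsto_add_atTop_iff_nat (k + 1)).mp ht
  · intro n hn
    obtain ⟨m, rfl⟩ := Nat.exists_eq_add_of_le hn
    have := ciInf_le hbdd m
    rwa [add_comm m] at this
  · intro r hr
    exact le_ciInf fun m => hr _ (by omega)

end Pool.Agent.TrotterWinkler
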