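import Mathlib

/-!
Definitions for the Trotter–Winkler constants `f(n, k)` and `f(k)`.
-/

set_option autoImplicit false

namespace Pool.Agent.TrotterWinkler

open MeasureTheory Filter Topology

/-- The `k`-element subsets of `[n]`. -/
abbrev KSet (n k : ℕ) : Type := {S : Finset (Fin n) // S.card = k}

/-- `(A, B)` is a `(k, n)`-shift pair: there are `s 0 < s 1 < ⋯ < s k` in `[n]` with
`A = {s 0, …, s (k-1)}` and `B = {s 1, …, s k}`. -/
def IsShiftPair {n k : ℕ} (A B : KSet n k) : Prop :=
  ∃ s : Fin (k + 1) → Fin n, StrictMono s ∧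
    (A : Finset (Fin n)) = Finset.univ.image (fun i : Fin k => s i.castSucc) ∧
    (B : Finset (Fin n)) = Finset.univ.image (fun i : Fin k => s i.succ)

/-- `f(Ω)`: the smallest probability, over shift pairs `(A, B)`, that `E_A` occurs and `E_B` does
not. -/
noncomputable def fSpace {n k : ℕ} {Ω : Type} [MeasurableSpace Ω] (P : Measure Ω)
    (E : KSet n k → Set Ω) : ℝ :=
  ⨅ p : {p : KSet n k × KSet n k // IsShiftPair p.1 p.2}, P.real (E p.1.1 ∩ (E p.1.2)ᶜ)

/-- `f(n, k)`: the supremum of `f(Ω)` over all probability spaces `Ω` and all choices of the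
events. -/
noncomputable def f (n k : ℕ) : ℝ :=
  sSup {x : ℝ | ∃ (Ω : Type) (_ : MeasurableSpace Ω) (P : Measure Ω)
    (_ : IsProbabilityMeasure P) (E : KSet n k → Set Ω),
    (∀ S, MeasurableSet (E S)) ∧ x = fSpace P E}

end Pool.Agent.TrotterWinkler
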