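import Pool.Agent.Lib.MP_4e1dcd_co.Move3

set_option autoImplicit false

namespace Pool.Agent.TrotterWinkler

open Finset

attribute [local instance] Model.fin

/-- The digits of the rotated word: first the word `u` of length `k+1`, then `θ` of its first `k`
letters. -/
def dg {k N : ℕ} (θ : (Fin k → Fin N) → (Fin k → Fin N)) (u : Fin (k + 1) → Fin N) (i : ℕ) :
    Fin N :=
  if h : i < k + 1 then u ⟨i, h⟩ else
    if h' : i - (k + 1) < k then θ (fun j => u j.castSucc) ⟨i - (k + 1), h'⟩ else u 0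

/-- The window of length `k+1` starting at `t`. -/
def win {k N : ℕ} (θ : (Fin k → Fin N) → (Fin k → Fin N)) (t : ℕ) (u : Fin (k + 1) → Fin N) :
    Fin (k + 1) → Fin N := fun i => dg θ u (t + i)

theorem win_injective {k N : ℕ} {θ : (Fin k → Fin N) → (Fin k → Fin N)} (hθ : PrefInj θ) {t : ℕ}
    (ht : t ≤ k) : Function.Injective (win θ t) := by
  intro u v huv
  have hlate : ∀ (i : ℕ) (hi : i < k + 1), t ≤ i → u ⟨i, hi⟩ = v ⟨i, hi⟩ := by
    intro i hi hti
    have := congrFun huv ⟨i - t, by omega⟩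
    simp only [win, dg, show t + (i - t) = i by omega, hi, dif_pos] at this
    exact this
  have hθeq : ∀ i : Fin k, (i : ℕ) < t →
      θ (fun j => u j.castSucc) i = θ (fun j => v j.castSucc) i := by
    intro i hi
    have := congrFun huv ⟨k + 1 + i - t, by omega⟩
    have h1 : ¬ (k + 1 + (i : ℕ) < k + 1) := by omega
    have h2 : k + 1 + (i : ℕ) - (k + 1) < k := by have := i.2; omega
    simp only [win, dg, show t + (k + 1 + (i : ℕ) - t) = k + 1 + i by omega, h1, dif_neg,
      h2, dif_pos, not_false_eq_true] at this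
    have h3 : (⟨k + 1 + (i : ℕ) - (k + 1), h2⟩ : Fin k) = i := Fin.ext (by simp)
    rwa [h3] at this
  have hearly := hθ t _ _ hθeq
  funext i
  by_cases h : t ≤ (i : ℕ)
  · exact hlate i i.2 h
  · have h' : (i : ℕ) < k := by omega
    exact hearly ⟨i, h'⟩ (by simpa using h)

theorem sum_win {k N : ℕ} {θ : (Fin k → Fin N) → (Fin k → Fin N)} (hθ : PrefInj θ) {t : ℕ}
    (ht : t ≤ k) (F : (Fin (k + 1) → Fin N) → ℝ) : ∑ u, F (win θ t u) = ∑ w, F w :=
  (Finite.injective_iff_bijective.mp (win_injective hθ ht)).sum_comp F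

/-- The truth value of the `t`-th window of length `k` of the rotated word. -/
def Yv (x : Finset ℕ → Bool) {k N : ℕ} (θ : (Fin k → Fin N) → (Fin k → Fin N))
    (u : Fin (k + 1) → Fin N) (t : ℕ) : Bool :=
  x (univ.image fun i : Fin k => (t + i) * N + (dg θ u (t + i) : ℕ))

/-- The descent indicator of a window. -/
noncomputable def Fv (x : Finset ℕ → Bool) {k N : ℕ} (t : ℕ) (w : Fin (k + 1) → Fin N) : ℝ :=
  if x (univ.image fun i : Fin k => (t + (i.castSucc : Fin (k + 1))) * N + (w i.castSucc : ℕ)) = true ∧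
    x (univ.image fun i : Fin k => (t + (i.succ : Fin (k + 1))) * N + (w i.succ : ℕ)) = false
  then 1 else 0

theorem Fv_win (x : Finset ℕ → Bool) {k N : ℕ} (θ : (Fin k → Fin N) → (Fin k → Fin N))
    (u : Fin (k + 1) → Fin N) (t : ℕ) : Fv x t (win θ t u) =
      if Yv x θ u t = true ∧ Yv x θ u (t + 1) = false then 1 else 0 := by
  unfold Fv Yv win
  simp only [Fin.val_castSucc, Fin.val_succ, ← add_assoc, add_right_comm t _ 1]

theorem Ex_Fv {k : ℕ} {r : ℝ} {N : ℕ} (D : Model k r ((2 * k + 1) * N)) {t : ℕ} (ht : t ≤ k)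
    (w : Fin (k + 1) → Fin N) : r ≤ D.Ex (fun ω => Fv (D.X ω) t w) := by
  have hN : 0 < N := (w 0).pos
  exact D.good (fun i => (t + i) * N + (w i : ℕ)) (by
    intro i j hij
    have h1 : (t + (i : ℕ) + 1) * N ≤ (t + j) * N := Nat.mul_le_mul_right N (by
      have : (i : ℕ) < j := hij
      omega)
    have h2 : (t + (i : ℕ) + 1) * N = (t + i) * N + N := by ring
    have h3 := (w i).2
    show (t + (i : ℕ)) * N + (w i : ℕ) < (t + (j : ℕ)) * N + (w j : ℕ)
    omega) (by
    intro i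
    have h1 : (t + (i : ℕ) + 1) * N ≤ (2 * k + 1) * N := Nat.mul_le_mul_right N (by
      have := i.2
      omega)
    have h2 : (t + (i : ℕ) + 1) * N = (t + i) * N + N := by ring
    have h3 := (w i).2
    show (t + (i : ℕ)) * N + (w i : ℕ) < (2 * k + 1) * N
    omega)

theorem Yv_zero (x : Finset ℕ → Bool) {k N : ℕ} (θ : (Fin k → Fin N) → (Fin k → Fin N))
    (u : Fin (k + 1) → Fin N) : Yv x θ u 0 = arr x N ∅ (blk k 0) (fun i => u i.castSucc) := by
  unfold Yv arr
  congr 1
  rw [empty_union]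
  refine image_congr fun i _ => ?_
  have h1 : blk k 0 i = i := by
    unfold blk
    rw [if_neg]
    have := i.2
    omega
  have h2 : dg θ u (0 + i) = u i.castSucc := by
    unfold dg
    rw [dif_pos (by have := i.2; omega)]
    congr 1
    exact Fin.ext (by simp)
  show (0 + (i : ℕ)) * N + (dg θ u (0 + i) : ℕ) = blk k 0 i * N + (u i.castSucc : ℕ)
  rw [h1, h2, Nat.zero_add]

theorem Yv_last (x : Finset ℕ → Bool) {k N : ℕ} (θ : (Fin k → Fin N) → (Fin k → Fin N))
    (u : Fin (k + 1) → Fin N) : Yv x θ u (k + 1) =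
      arr x N ∅ (blk k k) (θ fun i => u i.castSucc) := by
  unfold Yv arr
  congr 1
  rw [empty_union]
  refine image_congr fun i _ => ?_
  have h1 : blk k k i = k + 1 + i := by
    unfold blk
    rw [if_pos (by omega)]
    omega
  have h2 : dg θ u (k + 1 + i) = θ (fun i => u i.castSucc) i := by
    unfold dg
    rw [dif_neg (by omega), dif_pos (by have := i.2; omega)]
    congr 1
    exact Fin.ext (by simp)
  simp only [h1, h2]

theorem rotate_bound {m : ℕ} {r : ℝ} {N : ℕ} (D : Model (2 * m) r ((2 * (2 * m) + 1) * N)) :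
    (2 * m + 1) * r * (N : ℝ) ^ (2 * m + 1) ≤ m * (N : ℝ) ^ (2 * m + 1) +
      N * D.Ex (fun ω => (dist' (arr (D.X ω) N ∅ (blk (2 * m) 0))
        (arr (D.X ω) N ∅ (blk (2 * m) (2 * m))) : ℝ)) := by
  classical
  choose θ hθ hθ' using fun ω => exists_dist' (arr (D.X ω) N ∅ (blk (2 * m) 0))
    (arr (D.X ω) N ∅ (blk (2 * m) (2 * m)))
  have hcard : ((Fintype.card (Fin (2 * m + 1) → Fin N) : ℕ) : ℝ) = (N : ℝ) ^ (2 * m + 1) := by
    simp
  -- lower bound
  have hlow : (2 * m + 1) * r * (N : ℝ) ^ (2 * m + 1) ≤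
      D.Ex (fun ω => ∑ u, ∑ t ∈ range (2 * m + 1), Fv (D.X ω) t (win (θ ω) t u)) := by
    have h1 : (fun ω => ∑ u, ∑ t ∈ range (2 * m + 1), Fv (D.X ω) t (win (θ ω) t u)) =
        fun ω => ∑ t ∈ range (2 * m + 1), ∑ w : Fin (2 * m + 1) → Fin N, Fv (D.X ω) t w := by
      funext ω
      rw [sum_comm]
      refine sum_congr rfl fun t ht => ?_
      rw [mem_range] at ht
      exact sum_win (hθ ω) (by omega) _
    rw [h1, D.Ex_sum]
    have h2 : ∀ t ∈ range (2 * m + 1), r * (N : ℝ) ^ (2 * m + 1) ≤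
        D.Ex (fun ω => ∑ w : Fin (2 * m + 1) → Fin N, Fv (D.X ω) t w) := by
      intro t ht
      rw [mem_range] at ht
      rw [D.Ex_sum]
      refine le_trans ?_ (sum_le_sum fun w _ => Ex_Fv D (by omega : t ≤ 2 * m) w)
      rw [sum_const, card_univ, nsmul_eq_mul, hcard, mul_comm]
    refine le_trans ?_ (sum_le_sum h2)
    rw [sum_const, card_range, nsmul_eq_mul]
    push_cast
    exact le_of_eq (by ring)
  refine hlow.trans ?_
  -- upper bound
  have hup : ∀ ω, ∑ u, ∑ t ∈ range (2 * m + 1), Fv (D.X ω) t (win (θ ω) t u) ≤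
      m * (N : ℝ) ^ (2 * m + 1) + N * (dist' (arr (D.X ω) N ∅ (blk (2 * m) 0))
        (arr (D.X ω) N ∅ (blk (2 * m) (2 * m))) : ℝ) := by
    intro ω
    have h1 : ∀ u, ∑ t ∈ range (2 * m + 1), Fv (D.X ω) t (win (θ ω) t u) ≤
        m + (if arr (D.X ω) N ∅ (blk (2 * m) 0) (fun i => u i.castSucc) ≠
          arr (D.X ω) N ∅ (blk (2 * m) (2 * m)) (θ ω fun i => u i.castSucc) then 1 else 0) := by
      intro u
      simp only [Fv_win]
      refine (descents m (Yv (D.X ω) (θ ω) u)).trans ?_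
      rw [Yv_zero, Yv_last]
      refine add_le_add le_rfl ?_
      split_ifs with ha hb hb
      · exact le_rfl
      · exact absurd (by rw [ha.1, ha.2]; simp) hb
      · exact zero_le_one
      · exact le_rfl
    refine (sum_le_sum fun u _ => h1 u).trans ?_
    rw [sum_add_distrib, sum_const, card_univ, nsmul_eq_mul, hcard]
    refine add_le_add (le_of_eq (by ring)) ?_
    rw [← hθ']
    unfold mis
    have h2 : ∑ u : Fin (2 * m + 1) → Fin N,
        (if arr (D.X ω) N ∅ (blk (2 * m) 0) (fun i => u i.castSucc) ≠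
          arr (D.X ω) N ∅ (blk (2 * m) (2 * m)) (θ ω fun i => u i.castSucc) then (1 : ℝ) else 0) =
        ∑ p : Fin N × (Fin (2 * m) → Fin N),
        (if arr (D.X ω) N ∅ (blk (2 * m) 0) p.2 ≠
          arr (D.X ω) N ∅ (blk (2 * m) (2 * m)) (θ ω p.2) then (1 : ℝ) else 0) := by
      symm
      refine Fintype.sum_equiv (Fin.snocEquiv fun _ => Fin N) _ _ fun p => ?_
      simp [Fin.snocEquiv]
    rw [h2, Fintype.sum_prod_type]
    simp only [sum_const, card_univ, Fintype.card_fin, nsmul_eq_mul, sum_boole, le_refl]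
  refine (D.Ex_mono hup).trans ?_
  rw [D.Ex_add, D.Ex_const, D.Ex_mul]

end Pool.Agent.TrotterWinkler
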