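import Pool.Agent.Lib.MP_4e1dcd_co.Types
import Pool.Agent.Lib.MP_4e1dcd_co.Rotate

set_option autoImplicit false

namespace Pool.Agent.TrotterWinkler

open Finset MeasureTheory Filter Topology

/-- Upper bound: if all `f n (2m)` exceed `r` then `r ≤ m / (2m+1)`. -/
theorem upper {m : ℕ} {r : ℝ} (h : ∀ n, 2 * m + 1 ≤ n → r < f n (2 * m)) :
    r ≤ (m : ℝ) / (2 * m + 1) := by
  rw [le_div_iff₀ (by positivity)]
  refine le_of_forall_pos_le_add fun ε hε => ?_
  obtain ⟨N0, hN0⟩ := move_chain (2 * m) (ε / (2 * m + 1)) (by positivity)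
  obtain ⟨D⟩ := exists_model h ((2 * (2 * m) + 1) * (N0 + 1))
  have h1 := rotate_bound D
  have h2 := hN0 (N0 + 1) (by omega) D (2 * m) le_rfl
  have hN : (0 : ℝ) < ((N0 + 1 : ℕ) : ℝ) := by positivity
  have h3 : ((N0 + 1 : ℕ) : ℝ) * D.Ex (fun ω => (dist' (arr (D.X ω) (N0 + 1) ∅ (blk (2 * m) 0))
        (arr (D.X ω) (N0 + 1) ∅ (blk (2 * m) (2 * m))) : ℝ)) ≤
      ((N0 + 1 : ℕ) : ℝ) * (((2 * m : ℕ) : ℝ) * (ε / (2 * m + 1)) *
        ((N0 + 1 : ℕ) : ℝ) ^ (2 * m)) := mul_le_mul_of_nonneg_left h2 hN.le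
  have h4 : ((2 * m : ℕ) : ℝ) * (ε / (2 * m + 1)) ≤ ε := by
    rw [mul_div_assoc', div_le_iff₀ (by positivity)]
    push_cast
    nlinarith
  have h5 : ((N0 + 1 : ℕ) : ℝ) * (((2 * m : ℕ) : ℝ) * (ε / (2 * m + 1)) *
        ((N0 + 1 : ℕ) : ℝ) ^ (2 * m)) ≤ ε * ((N0 + 1 : ℕ) : ℝ) ^ (2 * m + 1) := by
    have : ((N0 + 1 : ℕ) : ℝ) * (((2 * m : ℕ) : ℝ) * (ε / (2 * m + 1)) *
        ((N0 + 1 : ℕ) : ℝ) ^ (2 * m)) = (((2 * m : ℕ) : ℝ) * (ε / (2 * m + 1))) *
        ((N0 + 1 : ℕ) : ℝ) ^ (2 * m + 1) := by ring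
    rw [this]
    exact mul_le_mul_of_nonneg_right h4 (by positivity)
  have h6 : (2 * m + 1) * r * ((N0 + 1 : ℕ) : ℝ) ^ (2 * m + 1) ≤
      (m + ε) * ((N0 + 1 : ℕ) : ℝ) ^ (2 * m + 1) := by
    calc _ ≤ _ := h1
      _ ≤ m * ((N0 + 1 : ℕ) : ℝ) ^ (2 * m + 1) + ε * ((N0 + 1 : ℕ) : ℝ) ^ (2 * m + 1) :=
        add_le_add le_rfl (h3.trans h5)
      _ = _ := by ring
  have h7 := le_of_mul_le_mul_right h6 (by positivity)
  linarith

theorem card_lt {m : ℕ} (j : Fin m) : (univ.filter fun i : Fin m => i < j).card = j := by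
  have : (univ.filter fun i : Fin m => i < j) = Iio j := by ext; simp
  rw [this, Fin.card_Iio]

/-- The labellings `σ` whose maximum over the positions `s 0, …, s k` is at `s j`. -/
noncomputable def maxAt {n k : ℕ} (s : Fin (k + 1) → Fin n) (j : Fin (k + 1)) :
    Finset (Equiv.Perm (Fin n)) := by
  classical exact univ.filter fun σ => ∀ i, σ (s i) ≤ σ (s j)

theorem mem_maxAt {n k : ℕ} (s : Fin (k + 1) → Fin n) (j : Fin (k + 1))
    (σ : Equiv.Perm (Fin n)) : σ ∈ maxAt s j ↔ ∀ i, σ (s i) ≤ σ (s j) := by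
  classical simp [maxAt]

theorem card_maxAt_le {n k : ℕ} {s : Fin (k + 1) → Fin n} (hs : StrictMono s)
    (i j : Fin (k + 1)) : (maxAt s i).card ≤ (maxAt s j).card := by
  classical
  refine card_le_card_of_injOn (fun σ => σ * Equiv.swap (s i) (s j)) (fun σ hσ => ?_)
    (fun σ _ τ _ h => mul_right_cancel h)
  rw [mem_coe, mem_maxAt] at hσ ⊢
  intro l
  simp only [Equiv.Perm.mul_apply, Equiv.swap_apply_right]
  by_cases h1 : l = i
  · rw [h1, Equiv.swap_apply_left]; exact hσ j
  · by_cases h2 : l = j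
    · rw [h2, Equiv.swap_apply_right]
    · rw [Equiv.swap_apply_of_ne_of_ne (fun h => h1 (hs.injective h))
        (fun h => h2 (hs.injective h))]
      exact hσ l

theorem maxAt_disjoint {n k : ℕ} {s : Fin (k + 1) → Fin n} (hs : StrictMono s)
    {i j : Fin (k + 1)} (hij : i ≠ j) : Disjoint (maxAt s i) (maxAt s j) := by
  rw [disjoint_left]
  intro σ hi hj
  rw [mem_maxAt] at hi hj
  exact hij (hs.injective (σ.injective (le_antisymm (hj i) (hi j))))

theorem card_maxAt {n k : ℕ} {s : Fin (k + 1) → Fin n} (hs : StrictMono s) (j : Fin (k + 1)) :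
    (k + 1) * (maxAt s j).card = Fintype.card (Equiv.Perm (Fin n)) := by
  classical
  have h1 : (univ : Finset (Equiv.Perm (Fin n))) = univ.biUnion (maxAt s) := by
    ext σ
    simp only [mem_univ, mem_biUnion, true_and, true_iff]
    obtain ⟨j, -, hj⟩ := exists_max_image (univ : Finset (Fin (k + 1))) (fun i => σ (s i))
      ⟨0, mem_univ _⟩
    exact ⟨j, (mem_maxAt s j σ).mpr fun i => hj i (mem_univ _)⟩
  rw [← card_univ, h1, card_biUnion (fun i _ j _ hij => maxAt_disjoint hs hij)]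
  rw [sum_congr rfl (fun i _ => le_antisymm (card_maxAt_le hs i j) (card_maxAt_le hs j i))]
  simp

/-- Lower bound, via the parity of the position of the maximum of a random labelling. -/
theorem lower (m n : ℕ) (hn : 2 * m + 1 ≤ n) : (m : ℝ) / (2 * m + 1) ≤ f n (2 * m) := by
  classical
  let _ : MeasurableSpace (Equiv.Perm (Fin n)) := ⊤
  have : MeasurableSingletonClass (Equiv.Perm (Fin n)) := ⟨fun _ => trivial⟩
  refine le_f_of_forall hn (ProbabilityTheory.uniformOn (Set.univ : Set (Equiv.Perm (Fin n))))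
    (fun S => {σ | ∃ a ∈ S.1, (∀ b ∈ S.1, σ b ≤ σ a) ∧ Odd (S.1.filter fun b => b < a).card})
    (fun S => trivial) _ ?_
  rintro ⟨A, hA⟩ ⟨B, hB⟩ ⟨s, hs, rfl, rfl⟩
  set p : Equiv.Perm (Fin n) → Prop := fun σ =>
    (∃ a ∈ (univ.image fun i : Fin (2 * m) => s i.castSucc),
      (∀ b ∈ (univ.image fun i : Fin (2 * m) => s i.castSucc), σ b ≤ σ a) ∧
      Odd ((univ.image fun i : Fin (2 * m) => s i.castSucc).filter fun b => b < a).card) ∧
    ¬ (∃ a ∈ (univ.image fun i : Fin (2 * m) => s i.succ),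
      (∀ b ∈ (univ.image fun i : Fin (2 * m) => s i.succ), σ b ≤ σ a) ∧
      Odd ((univ.image fun i : Fin (2 * m) => s i.succ).filter fun b => b < a).card) with hp
  have hset : ({σ : Equiv.Perm (Fin n) | ∃ a ∈ (univ.image fun i : Fin (2 * m) => s i.castSucc),
      (∀ b ∈ (univ.image fun i : Fin (2 * m) => s i.castSucc), σ b ≤ σ a) ∧
      Odd ((univ.image fun i : Fin (2 * m) => s i.castSucc).filter fun b => b < a).card} ∩
      {σ | ∃ a ∈ (univ.image fun i : Fin (2 * m) => s i.succ),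
      (∀ b ∈ (univ.image fun i : Fin (2 * m) => s i.succ), σ b ≤ σ a) ∧
      Odd ((univ.image fun i : Fin (2 * m) => s i.succ).filter fun b => b < a).card}ᶜ) =
      {σ | p σ} := rfl
  rw [hset, uniformOn_real]
  have hcard : ∀ j : Fin (2 * m), ((univ.image fun i : Fin (2 * m) => s i.castSucc).filter
      fun b => b < s j.castSucc).card = j := by
    intro j
    have : ((univ.image fun i : Fin (2 * m) => s i.castSucc).filter fun b => b < s j.castSucc) =
        (univ.filter fun i : Fin (2 * m) => i < j).image fun i => s i.castSucc := by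
      ext b
      simp only [mem_filter, mem_image, mem_univ, true_and]
      constructor
      · rintro ⟨⟨i, rfl⟩, h⟩
        exact ⟨i, Fin.castSucc_lt_castSucc_iff.mp (hs.lt_iff_lt.mp h), rfl⟩
      · rintro ⟨i, h, rfl⟩
        exact ⟨⟨i, rfl⟩, hs (Fin.castSucc_lt_castSucc_iff.mpr h)⟩
    rw [this, card_image_of_injective _
      (fun a b h => Fin.castSucc_injective _ (hs.injective h)), card_lt]
  have hcard' : ∀ j : Fin (2 * m), ((univ.image fun i : Fin (2 * m) => s i.succ).filter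
      fun b => b < s j.succ).card = j := by
    intro j
    have : ((univ.image fun i : Fin (2 * m) => s i.succ).filter fun b => b < s j.succ) =
        (univ.filter fun i : Fin (2 * m) => i < j).image fun i => s i.succ := by
      ext b
      simp only [mem_filter, mem_image, mem_univ, true_and]
      constructor
      · rintro ⟨⟨i, rfl⟩, h⟩
        exact ⟨i, Fin.succ_lt_succ_iff.mp (hs.lt_iff_lt.mp h), rfl⟩
      · rintro ⟨i, h, rfl⟩
        exact ⟨⟨i, rfl⟩, hs (Fin.succ_lt_succ_iff.mpr h)⟩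
    rw [this, card_image_of_injective _
      (fun a b h => Fin.succ_injective _ (hs.injective h)), card_lt]
  -- the odd positions
  let pos : Fin m → Fin (2 * m + 1) := fun l => ⟨2 * l + 1, by have := l.2; omega⟩
  have hposinj : Function.Injective pos := fun a b h => by
    simp only [pos, Fin.mk.injEq] at h
    exact Fin.ext (by omega)
  have hsub : (univ.biUnion fun l : Fin m => maxAt s (pos l)) ⊆ univ.filter p := by
    intro σ hσ
    simp only [mem_biUnion, mem_univ, true_and] at hσ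
    obtain ⟨l, hl⟩ := hσ
    rw [mem_maxAt] at hl
    have hl2 := l.2
    simp only [mem_filter, mem_univ, true_and, hp]
    constructor
    · let j : Fin (2 * m) := ⟨2 * l + 1, by omega⟩
      have hj : j.castSucc = pos l := rfl
      refine ⟨s j.castSucc, mem_image_of_mem _ (mem_univ _), ?_, ?_⟩
      · intro b hb
        simp only [mem_image, mem_univ, true_and] at hb
        obtain ⟨i, rfl⟩ := hb
        rw [hj]
        exact hl _
      · rw [hcard j]
        exact ⟨l, rfl⟩
    · rintro ⟨a, ha, hmax, hodd⟩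
      simp only [mem_image, mem_univ, true_and] at ha
      obtain ⟨i, rfl⟩ := ha
      rw [hcard' i] at hodd
      let j : Fin (2 * m) := ⟨2 * l, by omega⟩
      have hj : j.succ = pos l := Fin.ext rfl
      have h1 := hmax (s j.succ) (mem_image_of_mem _ (mem_univ _))
      have h2 := hl i.succ
      rw [← hj] at h2
      have h3 : i.succ = j.succ := hs.injective (σ.injective (le_antisymm h2 h1))
      have h4 : i = j := Fin.succ_injective _ h3
      rw [h4] at hodd
      exact (Nat.not_odd_iff_even.mpr ⟨l, by simp [j]; ring⟩) hodd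
  have hge : (m : ℝ) * (Fintype.card (Equiv.Perm (Fin n)) : ℝ) ≤
      (2 * m + 1) * ((univ.filter p).card : ℝ) := by
    have h1 := card_le_card hsub
    rw [card_biUnion (fun i _ j _ hij => maxAt_disjoint hs (fun h => hij (hposinj h)))] at h1
    have h2 : ∑ l : Fin m, (2 * m + 1) * (maxAt s (pos l)).card =
        m * Fintype.card (Equiv.Perm (Fin n)) := by
      rw [sum_congr rfl fun l _ => card_maxAt hs (pos l)]
      simp
    rw [← mul_sum] at h2
    have h3 : m * Fintype.card (Equiv.Perm (Fin n)) ≤ (2 * m + 1) * (univ.filter p).card := by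
      rw [← h2]
      exact Nat.mul_le_mul_left _ h1
    exact_mod_cast h3
  have hpos : (0 : ℝ) < (Fintype.card (Equiv.Perm (Fin n)) : ℝ) := by
    exact_mod_cast Fintype.card_pos
  rw [div_le_div_iff₀ (by positivity) hpos]
  linarith

/-- `f(2m) = m / (2m+1)`. -/
theorem even_case (m : ℕ) : Tendsto (fun n => f n (2 * m)) atTop (𝓝 ((m : ℝ) / (2 * m + 1))) := by
  obtain ⟨L, hL, hle, hge⟩ := exists_limit (2 * m)
  have h1 : (m : ℝ) / (2 * m + 1) ≤ L := hge _ fun n hn => lower m n hn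
  have h2 : L ≤ (m : ℝ) / (2 * m + 1) := by
    refine le_of_forall_lt fun r hr => ?_
    obtain ⟨r', hr1, hr2⟩ := exists_between hr
    exact hr1.trans_le (upper fun n hn => hr2.trans_le (hle n hn))
  rwa [le_antisymm h2 h1] at hL

end Pool.Agent.TrotterWinkler
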