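import Mathlib

/-!
Ultralimits of bounded real sequences, and iterated ultralimits.
-/

set_option autoImplicit false

namespace Pool.Agent.TrotterWinkler

open Filter Topology

/-- Limit of a real sequence along a fixed nonprincipal ultrafilter on `ℕ`. -/
noncomputable def ulim (g : ℕ → ℝ) : ℝ := limUnder (hyperfilter ℕ : Filter ℕ) g

theorem tendsto_ulim {g : ℕ → ℝ} {C : ℝ} (h : ∀ n, |g n| ≤ C) :
    Tendsto g (hyperfilter ℕ : Filter ℕ) (𝓝 (ulim g)) := by
  refine tendsto_nhds_limUnder ?_
  have hmem : Set.Icc (-C) C ∈ (Ultrafilter.map g (hyperfilter ℕ) : Ultrafilter ℝ) := by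
    rw [Ultrafilter.mem_map]
    exact Filter.Eventually.of_forall fun n => abs_le.mp (h n)
  obtain ⟨x, _, hx⟩ := isCompact_Icc.ultrafilter_le_nhds' _ hmem
  exact ⟨x, hx⟩

theorem ulim_eq_of_tendsto {g : ℕ → ℝ} {x : ℝ}
    (h : Tendsto g (hyperfilter ℕ : Filter ℕ) (𝓝 x)) : ulim g = x :=
  h.limUnder_eq

theorem ulim_const (c : ℝ) : ulim (fun _ => c) = c :=
  ulim_eq_of_tendsto tendsto_const_nhds

theorem ulim_add {g h : ℕ → ℝ} {C D : ℝ} (hg : ∀ n, |g n| ≤ C) (hh : ∀ n, |h n| ≤ D) :
    ulim (fun n => g n + h n) = ulim g + ulim h :=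
  ulim_eq_of_tendsto ((tendsto_ulim hg).add (tendsto_ulim hh))

theorem ulim_mul {g : ℕ → ℝ} {C : ℝ} (hg : ∀ n, |g n| ≤ C) (c : ℝ) :
    ulim (fun n => c * g n) = c * ulim g :=
  ulim_eq_of_tendsto ((tendsto_ulim hg).const_mul c)

theorem abs_ulim_le {g : ℕ → ℝ} {C : ℝ} (hg : ∀ n, |g n| ≤ C) : |ulim g| ≤ C := by
  have h := (tendsto_ulim hg)
  have h1 : ulim g ∈ Set.Icc (-C) C :=
    isClosed_Icc.mem_of_tendsto h (Filter.Eventually.of_forall fun n => abs_le.mp (hg n))
  exact abs_le.mpr h1

theorem le_ulim {g : ℕ → ℝ} {C c : ℝ} (hg : ∀ n, |g n| ≤ C) {N : ℕ} (h : ∀ n, N < n → c ≤ g n) :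
    c ≤ ulim g := by
  refine ge_of_tendsto (tendsto_ulim hg) ?_
  have : ∀ᶠ n in (hyperfilter ℕ : Filter ℕ), N < n :=
    Filter.Eventually.filter_mono (Nat.hyperfilter_le_atTop) (eventually_gt_atTop N)
  exact this.mono h

/-- Iterated ultralimit of a function of `m` natural numbers. -/
noncomputable def iter : (m : ℕ) → ((Fin m → ℕ) → ℝ) → ℝ
  | 0, g => g Fin.elim0
  | (m + 1), g => ulim fun a => iter m fun t => g (Fin.cons a t)

theorem abs_iter_le (m : ℕ) (g : (Fin m → ℕ) → ℝ) (C : ℝ) (hg : ∀ t, |g t| ≤ C) :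
    |iter m g| ≤ C := by
  induction m with
  | zero => exact hg _
  | succ m ih => exact abs_ulim_le fun a => ih _ fun t => hg _

theorem iter_const (m : ℕ) (c : ℝ) : iter m (fun _ => c) = c := by
  induction m with
  | zero => rfl
  | succ m ih =>
    show ulim (fun a => iter m fun _ => c) = c
    simp only [ih]
    exact ulim_const c

theorem iter_add (m : ℕ) (g h : (Fin m → ℕ) → ℝ) (C D : ℝ) (hg : ∀ t, |g t| ≤ C)
    (hh : ∀ t, |h t| ≤ D) : iter m (fun t => g t + h t) = iter m g + iter m h := by
  induction m with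
  | zero => rfl
  | succ m ih =>
    show ulim (fun a => iter m fun t => g (Fin.cons a t) + h (Fin.cons a t)) = _
    have : (fun a => iter m fun t => g (Fin.cons a t) + h (Fin.cons a t)) =
        fun a => (iter m fun t => g (Fin.cons a t)) + (iter m fun t => h (Fin.cons a t)) := by
      funext a
      exact ih _ _ (fun t => hg _) (fun t => hh _)
    rw [this, ulim_add (fun a => abs_iter_le m _ C fun t => hg _)
      (fun a => abs_iter_le m _ D fun t => hh _)]
    rfl

theorem iter_mul (m : ℕ) (g : (Fin m → ℕ) → ℝ) (C c : ℝ) (hg : ∀ t, |g t| ≤ C) :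
    iter m (fun t => c * g t) = c * iter m g := by
  induction m with
  | zero => rfl
  | succ m ih =>
    show ulim (fun a => iter m fun t => c * g (Fin.cons a t)) = _
    have : (fun a => iter m fun t => c * g (Fin.cons a t)) =
        fun a => c * (iter m fun t => g (Fin.cons a t)) := by
      funext a
      exact ih _ (fun t => hg _)
    rw [this, ulim_mul (fun a => abs_iter_le m _ C fun t => hg _)]
    rfl

theorem le_iter (m : ℕ) (g : (Fin m → ℕ) → ℝ) (C c : ℝ) (hg : ∀ t, |g t| ≤ C) (N : ℕ)
    (h : ∀ t : Fin m → ℕ, StrictMono t → (∀ i, N < t i) → c ≤ g t) : c ≤ iter m g := by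
  induction m generalizing N with
  | zero => exact h _ (fun i => i.elim0) (fun i => i.elim0)
  | succ m ih =>
    refine le_ulim (C := C) (N := N) (fun a => abs_iter_le m _ C fun t => hg _) fun a ha => ?_
    refine ih _ (fun t => hg _) a fun t ht hat => h _ ?_ ?_
    · intro i j hij
      refine Fin.cases (fun hij => ?_) (fun i hij => ?_) i hij
      · obtain ⟨j', rfl⟩ := Fin.exists_succ_eq.mpr hij.ne'
        simpa using hat j'
      · have hj : j ≠ 0 := fun hj => by simp [hj] at hij
        obtain ⟨j', rfl⟩ := Fin.exists_succ_eq.mpr hj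
        simpa using ht (Fin.succ_lt_succ_iff.mp hij)
    · intro i
      refine Fin.cases ?_ (fun i => ?_) i
      · simpa using ha
      · simpa using ha.trans (hat i)

/-- Iterated ultralimits only see the order: deleting unused variables changes nothing. -/
theorem iter_comp (m : ℕ) : ∀ (j : ℕ) (σ : Fin j → Fin m), StrictMono σ →
    ∀ g : (Fin j → ℕ) → ℝ, iter m (fun t => g (t ∘ σ)) = iter j g := by
  induction m with
  | zero =>
    intro j σ hσ g
    obtain rfl : j = 0 := by
      rcases Nat.eq_zero_or_pos j with h | h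
      · exact h
      · exact (σ ⟨0, h⟩).elim0
    show g _ = g _
    congr 1
  | succ m ih =>
    intro j σ hσ g
    by_cases h0 : ∀ i, σ i ≠ 0
    · -- the first variable is unused
      let σ' : Fin j → Fin m := fun i => (σ i).pred (h0 i)
      have hσ' : StrictMono σ' := fun i i' hii' => by
        simpa [σ'] using hσ hii'
      have hc : ∀ (a : ℕ) (t : Fin m → ℕ), (Fin.cons a t : Fin (m + 1) → ℕ) ∘ σ = t ∘ σ' := by
        intro a t
        funext i
        have : σ i = (σ' i).succ := by simp [σ']
        simp [this]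
      show ulim (fun a => iter m fun t => g ((Fin.cons a t : Fin (m + 1) → ℕ) ∘ σ)) = _
      simp only [hc, ih j σ' hσ' g]
      exact ulim_const _
    · push Not at h0
      obtain ⟨i0, hi0⟩ := h0
      obtain ⟨j, rfl⟩ : ∃ j', j = j' + 1 := ⟨j - 1, by have := i0.pos; omega⟩
      have hz : σ 0 = 0 := by
        rcases eq_or_ne i0 0 with h | h
        · rwa [h] at hi0
        · have := hσ (Fin.pos_of_ne_zero h)
          rw [hi0] at this
          exact absurd this (Fin.not_lt_zero _)
      have hne : ∀ i : Fin j, σ i.succ ≠ 0 := fun i h => by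
        have := hσ (Fin.succ_pos i)
        rw [h] at this
        exact absurd this (Fin.not_lt_zero _)
      let σ' : Fin j → Fin m := fun i => (σ i.succ).pred (hne i)
      have hσ' : StrictMono σ' := fun i i' hii' => by
        simpa [σ'] using hσ (Fin.succ_lt_succ_iff.mpr hii')
      have hc : ∀ (a : ℕ) (t : Fin m → ℕ),
          (Fin.cons a t : Fin (m + 1) → ℕ) ∘ σ = Fin.cons a (t ∘ σ') := by
        intro a t
        funext i
        refine Fin.cases ?_ (fun i => ?_) i
        · simp [hz]
        · have : σ i.succ = (σ' i).succ := by simp [σ']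
          simp [this]
      show ulim (fun a => iter m fun t => g ((Fin.cons a t : Fin (m + 1) → ℕ) ∘ σ)) =
        ulim (fun a => iter j fun t => g (Fin.cons a t))
      congr 1
      funext a
      simp only [hc]
      exact ih j σ' hσ' (fun t => g (Fin.cons a t))

end Pool.Agent.TrotterWinkler
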