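import Pool.Agent.Lib.MP_4e1dcd_co.Basic

/-!
Lower bound for `f(n, 3)` from independent letters with real weights, and the closure of the
attainable pairs (value, density) under splitting, mirroring and continuous peeling.
-/

set_option autoImplicit false

namespace Pool.Agent.TrotterWinkler.L59

open MeasureTheory Filter Topology Finset

/-- Real indicator of a truth value. -/
def ind (b : Bool) : ℝ := if b then 1 else 0

theorem ind_not (b : Bool) : ind (!b) = 1 - ind b := by cases b <;> simp [ind]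

/-- Probability that `F` holds for the first three of four independent letters and fails for the
last three. -/
def V {α : Type} [Fintype α] (w : α → ℝ) (F : α → α → α → Bool) : ℝ :=
  ∑ x, ∑ y, ∑ z, ∑ t, w x * w y * w z * w t * (ind (F x y z) * (1 - ind (F y z t)))

/-- Probability that `F` holds for three independent letters. -/
def R {α : Type} [Fintype α] (w : α → ℝ) (F : α → α → α → Bool) : ℝ :=
  ∑ x, ∑ y, ∑ z, w x * w y * w z * ind (F x y z)

/-- The attainable pairs. -/
def Att : Set (ℝ × ℝ) := {p | ∃ (α : Type) (_ : Fintype α) (w : α → ℝ) (F : α → α → α → Bool),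
  (∀ x, 0 ≤ w x) ∧ ∑ x, w x = 1 ∧ V w F = p.1 ∧ R w F = p.2}

theorem leaf (b : Bool) : ((0 : ℝ), ind b) ∈ Att := by
  refine ⟨Unit, inferInstance, fun _ => 1, fun _ _ _ => b, fun _ => zero_le_one, by simp, ?_, ?_⟩
  · cases b <;> simp [V, ind]
  · cases b <;> simp [R, ind]

theorem sum3 {α : Type} [Fintype α] (w : α → ℝ) (hw : ∑ x, w x = 1)
    (F : α → α → α → Bool) : ∑ x, ∑ y, ∑ z, w x * w y * w z * (1 - ind (F x y z)) =
      1 - R w F := by
  have h : ∑ x, ∑ y, ∑ z, w x * w y * w z = 1 := by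
    simp only [← Finset.mul_sum, hw, mul_one]
  unfold R
  simp only [mul_sub, mul_one, Finset.sum_sub_distrib, h]

theorem mirror {a b : ℝ} (h : (a, b) ∈ Att) : (a, 1 - b) ∈ Att := by
  obtain ⟨α, _, w, F, h0, h1, hV, hR⟩ := h
  simp only at hV hR
  refine ⟨α, inferInstance, w, fun x y z => !F z y x, h0, h1, ?_, ?_⟩
  · rw [← hV]
    unfold V
    have e : ∀ g : α → α → α → α → ℝ, ∑ x, ∑ y, ∑ z, ∑ t, g x y z t =
        ∑ t, ∑ z, ∑ y, ∑ x, g x y z t := by
      intro g
      rw [show (∑ x, ∑ y, ∑ z, ∑ t, g x y z t) =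
        ∑ p : α × α × α × α, g p.1 p.2.1 p.2.2.1 p.2.2.2 by
          simp only [Fintype.sum_prod_type]]
      rw [show (∑ t, ∑ z, ∑ y, ∑ x, g x y z t) =
        ∑ p : α × α × α × α, g p.2.2.2 p.2.2.1 p.2.1 p.1 by
          simp only [Fintype.sum_prod_type]]
      refine Fintype.sum_equiv
        ⟨fun p => (p.2.2.2, p.2.2.1, p.2.1, p.1), fun p => (p.2.2.2, p.2.2.1, p.2.1, p.1),
          fun p => rfl, fun p => rfl⟩ _ _ fun p => rfl
    rw [e]
    refine sum_congr rfl fun x _ => sum_congr rfl fun y _ => sum_congr rfl fun z _ =>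
      sum_congr rfl fun t _ => ?_
    rw [ind_not, ind_not]
    ring
  · simp only
    rw [← hR, ← sum3 w h1 F]
    unfold R
    have e : ∀ g : α → α → α → ℝ, ∑ x, ∑ y, ∑ z, g x y z = ∑ z, ∑ y, ∑ x, g x y z := by
      intro g
      rw [show (∑ x, ∑ y, ∑ z, g x y z) =
        ∑ p : α × α × α, g p.1 p.2.1 p.2.2 by simp only [Fintype.sum_prod_type]]
      rw [show (∑ z, ∑ y, ∑ x, g x y z) =
        ∑ p : α × α × α, g p.2.2 p.2.1 p.1 by simp only [Fintype.sum_prod_type]]
      refine Fintype.sum_equiv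
        ⟨fun p => (p.2.2, p.2.1, p.1), fun p => (p.2.2, p.2.1, p.1),
          fun p => rfl, fun p => rfl⟩ _ _ fun p => rfl
    rw [e]
    refine sum_congr rfl fun x _ => sum_congr rfl fun y _ => sum_congr rfl fun z _ => ?_
    rw [ind_not]
    ring

/-- The split predicate. -/
def spl {α β : Type} (F : α → α → α → Bool) (G : β → β → β → Bool) :
    α ⊕ β → α ⊕ β → α ⊕ β → Bool
  | .inl x, .inl y, .inl z => F x y z
  | .inl _, .inl _, .inr _ => true
  | .inl _, .inr _, .inl _ => false
  | .inl _, .inr _, .inr _ => false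
  | .inr _, .inl _, .inl _ => true
  | .inr _, .inl _, .inr _ => true
  | .inr _, .inr _, .inl _ => false
  | .inr x, .inr y, .inr z => G x y z

theorem V_scale {α : Type} [Fintype α] (w : α → ℝ) (F : α → α → α → Bool) (p : ℝ) :
    ∑ x, ∑ y, ∑ z, ∑ t, (p * w x) * (p * w y) * (p * w z) * (p * w t) *
      (ind (F x y z) * (1 - ind (F y z t))) = p ^ 4 * V w F := by
  unfold V
  simp only [Finset.mul_sum]
  refine sum_congr rfl fun x _ => sum_congr rfl fun y _ => sum_congr rfl fun z _ =>
      sum_congr rfl fun t _ => ?_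
  ring

theorem R_scale {α : Type} [Fintype α] (w : α → ℝ) (F : α → α → α → Bool) (p : ℝ) :
    ∑ x, ∑ y, ∑ z, (p * w x) * (p * w y) * (p * w z) * ind (F x y z) = p ^ 3 * R w F := by
  unfold R
  simp only [Finset.mul_sum]
  refine sum_congr rfl fun x _ => sum_congr rfl fun y _ => sum_congr rfl fun z _ => ?_
  ring

theorem split {a b c d p q : ℝ} (h : (a, b) ∈ Att) (h' : (c, d) ∈ Att) (hp : 0 ≤ p) (hq : 0 ≤ q)
    (hpq : p + q = 1) : (p * q + p ^ 3 * q * (1 - b) + p ^ 4 * a + p * q ^ 3 * d + q ^ 4 * c,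
      p * q + p ^ 2 * q + p ^ 3 * b + q ^ 3 * d) ∈ Att := by
  obtain ⟨α, _, w, F, h0, h1, hV, hR⟩ := h
  obtain ⟨β, _, u, G, g0, g1, gV, gR⟩ := h'
  simp only at hV hR gV gR
  refine ⟨α ⊕ β, inferInstance, Sum.elim (fun x => p * w x) (fun y => q * u y), spl F G,
    ?_, ?_, ?_, ?_⟩
  · rintro (x | y)
    · exact mul_nonneg hp (h0 x)
    · exact mul_nonneg hq (g0 y)
  · rw [Fintype.sum_sum_type]
    simp only [Sum.elim_inl, Sum.elim_inr, ← Finset.mul_sum, h1, g1, mul_one, hpq]
  · have i1 : ind true = 1 := rfl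
    have i0 : ind false = 0 := rfl
    have s1 : ∑ x, p * w x = p := by rw [← Finset.mul_sum, h1, mul_one]
    have s2 : ∑ x, q * u x = q := by rw [← Finset.mul_sum, g1, mul_one]
    have E1 := V_scale w F p
    have E2 := V_scale u G q
    have E3 : ∑ x : β, ∑ y : α, ∑ z : α, ∑ t : α, (q * u x) * (p * w y) * (p * w z) * (p * w t) *
      (1 - ind (F y z t)) = q * (p ^ 3 * (1 - R w F)) := by
      rw [← sum3 w h1 F]
      conv_rhs => rw [← s2]
      rw [Finset.sum_mul]
      refine sum_congr rfl fun x _ => ?_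
      simp only [Finset.mul_sum]
      refine sum_congr rfl fun y _ => sum_congr rfl fun z _ => sum_congr rfl fun t _ => ?_
      ring
    have E4 : ∑ x : β, ∑ y : β, ∑ z : β, ∑ t : α, (q * u x) * (q * u y) * (q * u z) * (p * w t) *
      ind (G x y z) = p * (q ^ 3 * R u G) := by
      rw [← R_scale u G q, Finset.mul_sum]
      refine sum_congr rfl fun x _ => ?_
      rw [Finset.mul_sum]
      refine sum_congr rfl fun y _ => ?_
      rw [Finset.mul_sum]
      refine sum_congr rfl fun z _ => ?_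
      rw [← s1, Finset.sum_mul]
      refine sum_congr rfl fun t _ => ?_
      rw [s1]
      ring
    unfold V
    simp only [Fintype.sum_sum_type, Sum.elim_inl, Sum.elim_inr, spl, i1, i0, sub_self, mul_zero,
      sub_zero, mul_one, zero_mul, Finset.sum_const_zero, add_zero, zero_add, one_mul,
      Finset.sum_add_distrib, E1, E2, E3, E4]
    simp only [← Finset.mul_sum, s1, s2, ← Finset.sum_mul]
    rw [hV, hR, gV, gR]
    have : q = 1 - p := by linarith
    subst this
    ring
  · have i1 : ind true = 1 := rfl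
    have i0 : ind false = 0 := rfl
    have s1 : ∑ x, p * w x = p := by rw [← Finset.mul_sum, h1, mul_one]
    have s2 : ∑ x, q * u x = q := by rw [← Finset.mul_sum, g1, mul_one]
    have E1 := R_scale w F p
    have E2 := R_scale u G q
    unfold R
    simp only [Fintype.sum_sum_type, Sum.elim_inl, Sum.elim_inr, spl, i1, i0, mul_zero,
      mul_one, Finset.sum_const_zero, add_zero, zero_add,
      Finset.sum_add_distrib, E1, E2]
    simp only [← Finset.mul_sum, s1, s2, ← Finset.sum_mul]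
    rw [hR, gR]
    have : q = 1 - p := by linarith
    subst this
    ring

/-- Peeling `n` equal layers with ratio `r`. -/
theorem peel_fin {a b r A B : ℝ} (h : (a, b) ∈ Att) (hr : 0 ≤ r) (hr1 : r ≤ 1)
    (hB : B * (1 + r + r ^ 2) = 2 * r ^ 2 - r + 1)
    (hA : A * (1 + r + r ^ 2 + r ^ 3) = r + r ^ 3 * (1 - B) + r * (1 - r) ^ 2) (n : ℕ) :
    (A - (b - B) * (r ^ n) ^ 3 + (a - A + (b - B)) * (r ^ n) ^ 4,
      B + (b - B) * (r ^ n) ^ 3) ∈ Att := by
  induction n with
  | zero =>
    convert h using 2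
    · simp
    · simp
  | succ n ih =>
    have := split ih (leaf true) hr (sub_nonneg.mpr hr1) (by ring)
    convert this using 2
    · simp only [ind, if_true]
      rw [pow_succ]
      linear_combination (1 - r) * hA
    · simp only [ind, if_true]
      rw [pow_succ]
      linear_combination (1 - r) * hB

/-- The continuous peel. -/
noncomputable def peel (p : ℝ) (x : ℝ × ℝ) : ℝ × ℝ :=
  (1 / 3 - (x.2 - 2 / 3) * p ^ 3 + (x.1 - 1 / 3 + (x.2 - 2 / 3)) * p ^ 4,
    2 / 3 + (x.2 - 2 / 3) * p ^ 3)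

theorem peel_mem {p : ℝ} (hp : 0 < p) (hp1 : p ≤ 1) {x : ℝ × ℝ} (hx : x ∈ closure Att) :
    peel p x ∈ closure Att := by
  have hc : Continuous (peel p) := by unfold peel; fun_prop
  have key : ∀ x ∈ Att, peel p x ∈ closure Att := by
    rintro ⟨a, b⟩ hx
    let B : ℝ → ℝ := fun r => (2 * r ^ 2 - r + 1) / (1 + r + r ^ 2)
    let A : ℝ → ℝ := fun r => (r + r ^ 3 * (1 - B r) + r * (1 - r) ^ 2) / (1 + r + r ^ 2 + r ^ 3)
    let g : ℝ → ℝ × ℝ := fun r => (A r - (b - B r) * p ^ 3 + (a - A r + (b - B r)) * p ^ 4,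
      B r + (b - B r) * p ^ 3)
    have hB : ContinuousAt B 1 := by
      refine ContinuousAt.div (by fun_prop) (by fun_prop) (by norm_num)
    have hA : ContinuousAt A 1 := by
      refine ContinuousAt.div ?_ (by fun_prop) (by norm_num)
      fun_prop
    have hg : ContinuousAt g 1 := by
      refine ContinuousAt.prodMk ?_ ?_ <;> fun_prop
    have hr : Tendsto (fun n : ℕ => p ^ (1 / ((n : ℝ) + 1))) atTop (𝓝 1) := by
      have : Tendsto (fun n : ℕ => (1 / ((n : ℝ) + 1))) atTop (𝓝 0) :=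
        tendsto_one_div_add_atTop_nhds_zero_nat
      have h2 := (Real.continuousAt_const_rpow hp.ne' (b := 0)).tendsto.comp this
      rw [Real.rpow_zero] at h2
      exact h2
    have hlim := hg.tendsto.comp hr
    have g1 : g 1 = peel p (a, b) := by
      simp only [g, A, B, peel]
      norm_num
    rw [g1] at hlim
    refine mem_closure_of_tendsto hlim (Eventually.of_forall fun n => ?_)
    have r0 : 0 ≤ p ^ (1 / ((n : ℝ) + 1)) := Real.rpow_nonneg hp.le _
    have r1 : p ^ (1 / ((n : ℝ) + 1)) ≤ 1 :=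
      Real.rpow_le_one hp.le hp1 (by positivity)
    have hpow : (p ^ (1 / ((n : ℝ) + 1))) ^ (n + 1) = p := by
      rw [← Real.rpow_natCast, ← Real.rpow_mul hp.le]
      push_cast
      rw [one_div_mul_cancel (by positivity), Real.rpow_one]
    have := peel_fin (A := A (p ^ (1 / ((n : ℝ) + 1)))) (B := B (p ^ (1 / ((n : ℝ) + 1)))) hx r0 r1
      (by simp only [B]; field_simp) (by simp only [A]; field_simp) (n + 1)
    rw [hpow] at this
    exact this
  have h2 := map_mem_closure hc hx key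
  rwa [closure_closure] at h2

/-- Mirror. -/
theorem mirror_mem {x : ℝ × ℝ} (hx : x ∈ closure Att) : (x.1, 1 - x.2) ∈ closure Att :=
  map_mem_closure (f := fun x : ℝ × ℝ => (x.1, 1 - x.2)) (by fun_prop) hx
    fun _ h => mirror h

/-- Split with the constant block `1`. -/
noncomputable def cut (p : ℝ) (x : ℝ × ℝ) : ℝ × ℝ :=
  (p * (1 - p) + p ^ 3 * (1 - p) * (1 - x.2) + p ^ 4 * x.1 + p * (1 - p) ^ 3,
    p * (1 - p) + p ^ 2 * (1 - p) + p ^ 3 * x.2 + (1 - p) ^ 3)

theorem cut_mem {p : ℝ} (hp : 0 ≤ p) (hp1 : p ≤ 1) {x : ℝ × ℝ} (hx : x ∈ closure Att) :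
    cut p x ∈ closure Att := by
  refine map_mem_closure (f := cut p) (by unfold cut; fun_prop) hx fun x h => ?_
  have := split (a := x.1) (b := x.2) h (leaf true) hp (sub_nonneg.mpr hp1) (by ring)
  convert this using 2
  · simp [ind, cut]
  · simp [ind, cut]

/-- One level of the extremal tree. -/
noncomputable def level (s t : ℝ) (x : ℝ × ℝ) : ℝ × ℝ :=
  cut s ((peel t x).1, 1 - (peel t x).2)

theorem level_mem {s t : ℝ} (hs : 0 ≤ s) (hs1 : s ≤ 1) (ht : 0 < t) (ht1 : t ≤ 1) {x : ℝ × ℝ}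
    (hx : x ∈ closure Att) : level s t x ∈ closure Att :=
  cut_mem hs hs1 (mirror_mem (peel_mem ht ht1 hx))

theorem sum_comp {n k : ℕ} {α : Type} [Fintype α] (s : Fin k → Fin n)
    (hs : Function.Injective s) (w : α → ℝ) (hw : ∑ a, w a = 1) (g : (Fin k → α) → ℝ) :
    ∑ ω : Fin n → α, (∏ i, w (ω i)) * g (ω ∘ s) = ∑ u : Fin k → α, (∏ j, w (u j)) * g u := by
  classical
  let e : (Fin n → α) ≃ (Fin k → α) × ({i // ¬ i ∈ Set.range s} → α) :=
    (Equiv.piEquivPiSubtypeProd (fun i => i ∈ Set.range s) (fun _ => α)).trans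
      (Equiv.prodCongr (Equiv.arrowCongr (Equiv.ofInjective s hs).symm (Equiv.refl _))
        (Equiv.refl _))
  have he : ∀ ω, (e ω).1 = ω ∘ s := by
    intro ω
    funext j
    simp [e, Equiv.arrowCongr]
  have he2 : ∀ ω, (e ω).2 = fun i : {i // ¬ i ∈ Set.range s} => ω i.1 := by
    intro ω
    funext j
    simp [e]
  have hprod : ∀ ω : Fin n → α, ∏ i, w (ω i) =
      (∏ j, w ((e ω).1 j)) * ∏ i, w ((e ω).2 i) := by
    intro ω
    rw [he, he2, ← Fintype.prod_subtype_mul_prod_subtype (fun i => i ∈ Set.range s)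
      (fun i => w (ω i))]
    congr 1
    exact Eq.trans (Finset.prod_congr (by ext i; simp only [Finset.mem_univ]) fun _ _ => rfl)
      (Fintype.prod_equiv (Equiv.ofInjective s hs) (fun j => w ((ω ∘ s) j))
        (fun i => w (ω i.1)) fun j => rfl).symm
  have h1 : ∑ ω : Fin n → α, (∏ i, w (ω i)) * g (ω ∘ s) =
      ∑ p : (Fin k → α) × ({i // ¬ i ∈ Set.range s} → α),
        (∏ j, w (p.1 j)) * (∏ i, w (p.2 i)) * g p.1 := by
    refine Fintype.sum_equiv e _ _ fun ω => ?_
    rw [hprod, he]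
  rw [h1, Fintype.sum_prod_type]
  refine sum_congr rfl fun u _ => ?_
  have h2 : ∑ v : {i // ¬ i ∈ Set.range s} → α, ∏ i, w (v i) = 1 := by
    have := Finset.prod_univ_sum (fun _ : {i // ¬ i ∈ Set.range s} => (Finset.univ : Finset α))
      (fun _ a => w a)
    rw [Fintype.piFinset_univ] at this
    rw [← this]
    simp [hw]
  calc ∑ v : {i // ¬ i ∈ Set.range s} → α, (∏ j, w (u j)) * (∏ i, w (v i)) * g u
      = (∏ j, w (u j)) * g u * ∑ v : {i // ¬ i ∈ Set.range s} → α, ∏ i, w (v i) := by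
        rw [Finset.mul_sum]
        exact sum_congr rfl fun v _ => by ring
    _ = _ := by rw [h2, mul_one]

theorem sum_cons {j : ℕ} {α : Type} [Fintype α] (g : (Fin (j + 1) → α) → ℝ) :
    ∑ w, g w = ∑ a : α, ∑ u : Fin j → α, g (Fin.cons a u) := by
  rw [← Fintype.sum_prod_type']
  exact (Fintype.sum_equiv (Fin.consEquiv fun _ => α) _ _ fun _ => rfl).symm

/-- Independent letters with real weights give lower bounds. -/
theorem le_of_att {x : ℝ × ℝ} (hx : x ∈ Att) {n : ℕ} (hn : 4 ≤ n) : x.1 ≤ f n 3 := by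
  classical
  obtain ⟨α, _, w, F, h0, h1, hV, -⟩ := hx
  have hne : Nonempty α := by
    by_contra hcon
    rw [not_nonempty_iff] at hcon
    simp at h1
  let _ : MeasurableSpace (Fin n → α) := ⊤
  have hW : ∑ ω : Fin n → α, ENNReal.ofReal (∏ i, w (ω i)) = 1 := by
    rw [← ENNReal.ofReal_sum_of_nonneg fun ω _ => Finset.prod_nonneg fun i _ => h0 _]
    have := Finset.prod_univ_sum (fun _ : Fin n => (Finset.univ : Finset α)) (fun _ a => w a)
    rw [Fintype.piFinset_univ] at this
    rw [← this]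
    simp [h1]
  let P : PMF (Fin n → α) := PMF.ofFintype _ hW
  have hP : ∀ S : Set (Fin n → α), P.toMeasure.real S =
      ∑ ω, (∏ i, w (ω i)) * S.indicator (fun _ => 1) ω := by
    intro S
    rw [Measure.real, PMF.toMeasure_apply_fintype, ENNReal.toReal_sum]
    · refine sum_congr rfl fun ω _ => ?_
      by_cases h : ω ∈ S
      · simp only [Set.indicator_of_mem h, mul_one]
        exact ENNReal.toReal_ofReal (Finset.prod_nonneg fun i _ => h0 _)
      · simp [h]
    · intro ω _
      by_cases h : ω ∈ S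
      · rw [Set.indicator_of_mem h]
        exact ENNReal.ofReal_ne_top
      · rw [Set.indicator_of_notMem h]
        exact ENNReal.zero_ne_top
  refine le_f_of_forall hn P.toMeasure
    (fun S => {ω | F (ω (S.1.orderEmbOfFin S.2 0)) (ω (S.1.orderEmbOfFin S.2 1))
      (ω (S.1.orderEmbOfFin S.2 2)) = true})
    (fun S => trivial) _ ?_
  rintro ⟨A, hA⟩ ⟨B, hB⟩ ⟨s, hs, rfl, rfl⟩
  have h1' : (fun i : Fin 3 => s i.castSucc) =
      (Finset.univ.image (fun i : Fin 3 => s i.castSucc)).orderEmbOfFin hA :=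
    Finset.orderEmbOfFin_unique hA (fun x => Finset.mem_image_of_mem _ (Finset.mem_univ _))
      (fun i j hij => hs (Fin.castSucc_lt_castSucc_iff.mpr hij))
  have h2' : (fun i : Fin 3 => s i.succ) =
      (Finset.univ.image (fun i : Fin 3 => s i.succ)).orderEmbOfFin hB :=
    Finset.orderEmbOfFin_unique hB (fun x => Finset.mem_image_of_mem _ (Finset.mem_univ _))
      (fun i j hij => hs (Fin.succ_lt_succ_iff.mpr hij))
  rw [hP]
  have hval : ∀ ω : Fin n → α, Set.indicator ({ω : Fin n → α | F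
        (ω ((Finset.univ.image (fun i : Fin 3 => s i.castSucc)).orderEmbOfFin hA 0))
        (ω ((Finset.univ.image (fun i : Fin 3 => s i.castSucc)).orderEmbOfFin hA 1))
        (ω ((Finset.univ.image (fun i : Fin 3 => s i.castSucc)).orderEmbOfFin hA 2)) = true} ∩
      {ω : Fin n → α | F
        (ω ((Finset.univ.image (fun i : Fin 3 => s i.succ)).orderEmbOfFin hB 0))
        (ω ((Finset.univ.image (fun i : Fin 3 => s i.succ)).orderEmbOfFin hB 1))
        (ω ((Finset.univ.image (fun i : Fin 3 => s i.succ)).orderEmbOfFin hB 2)) = true}ᶜ)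
        (fun _ => (1 : ℝ)) ω =
      (fun u : Fin 4 → α => ind (F (u 0) (u 1) (u 2)) * (1 - ind (F (u 1) (u 2) (u 3))))
        (ω ∘ s) := by
    intro ω
    rw [← h1', ← h2', Set.indicator_apply]
    simp only [Set.mem_inter_iff, Set.mem_ofPred_eq, Set.mem_compl_iff, Function.comp_apply]
    change (if F (ω (s 0)) (ω (s 1)) (ω (s 2)) = true ∧ ¬ F (ω (s 1)) (ω (s 2)) (ω (s 3)) = true
      then (1 : ℝ) else 0) = _
    cases F (ω (s 0)) (ω (s 1)) (ω (s 2)) <;> cases F (ω (s 1)) (ω (s 2)) (ω (s 3)) <;>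
      simp [ind]
  refine le_of_eq ((Eq.trans ?_ (sum_comp s hs.injective w h1 (fun u : Fin 4 → α =>
    ind (F (u 0) (u 1) (u 2)) * (1 - ind (F (u 1) (u 2) (u 3))))).symm).trans
    (Finset.sum_congr rfl fun ω _ => congrArg (fun c => (∏ i, w (ω i)) * c) (hval ω).symm))
  rw [← hV]
  unfold V
  symm
  rw [sum_cons (j := 3)]
  refine sum_congr rfl fun x _ => ?_
  rw [sum_cons (j := 2)]
  refine sum_congr rfl fun y _ => ?_
  rw [sum_cons (j := 1)]
  refine sum_congr rfl fun z _ => ?_
  rw [sum_cons (j := 0)]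
  refine sum_congr rfl fun t _ => ?_
  rw [Fintype.sum_unique]
  rw [Fin.prod_univ_four]
  rfl

theorem le_of_closure {x : ℝ × ℝ} (hx : x ∈ closure Att) {n : ℕ} (hn : 4 ≤ n) :
    x.1 ≤ f n 3 := by
  have : IsClosed {x : ℝ × ℝ | x.1 ≤ f n 3} := isClosed_le continuous_fst continuous_const
  exact closure_minimal (fun x hx => le_of_att hx hn) this hx

/-- The pair `(V, R)` of the three-level tree. -/
noncomputable def pt : ℝ × ℝ :=
  level (6273 / 10000) (4502 / 10000) (level (596 / 1000) (5405 / 10000)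
    (level (596 / 1000) (5405 / 10000) (level (596 / 1000) (5405 / 10000) (0, 1))))

theorem pt_mem : pt ∈ closure Att := by
  have h0 : ((0 : ℝ), (1 : ℝ)) ∈ closure Att := subset_closure (by
    have := leaf true
    simpa [ind] using this)
  unfold pt
  refine level_mem (by norm_num) (by norm_num) (by norm_num) (by norm_num) ?_
  refine level_mem (by norm_num) (by norm_num) (by norm_num) (by norm_num) ?_
  refine level_mem (by norm_num) (by norm_num) (by norm_num) (by norm_num) ?_
  exact level_mem (by norm_num) (by norm_num) (by norm_num) (by norm_num) h0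

theorem pt_value : (0.3794208 : ℝ) ≤ pt.1 := by
  simp only [pt, level, cut, peel]
  norm_num

/-- `f(n, 3) ≥ 0.3794208` for all `n ≥ 4`. -/
theorem lower59 {n : ℕ} (hn : 4 ≤ n) : (0.3794208 : ℝ) ≤ f n 3 :=
  pt_value.trans (le_of_closure pt_mem hn)

end Pool.Agent.TrotterWinkler.L59
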