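import Pool.Agent.Lib.MP_4e1dcd_co.Types

set_option autoImplicit false

namespace Pool.Agent.TrotterWinkler

open Finset Filter Topology

/-- The table of a predicate on triples of types in `Fin 12`: bit `(12 x + y) * 12 + z`. -/
def table : ℕ := 2999359108194218022433685868320971049994222350248105640196190729050627615435289608086607154239806614677726310336448494557785455623342961473453919904478783883141670748317163019206584955282332470220543792236559116172524847633707893265359516090479118342873565378095089473834105828288636230244615647912851475337595644363780026142065464317166438816912143671705950915277917951928877335609276405739836520334151094311224194044815938190386912294464943480286001504447957807288569342696680866647043612722803386754071858505030173483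

/-- Sum of `g` over `0, …, n-1`. -/
def sumTo : ℕ → (ℕ → ℕ) → ℕ
  | 0, _ => 0
  | n + 1, g => sumTo n g + g n

theorem sumTo_eq (n : ℕ) (g : ℕ → ℕ) : sumTo n g = ∑ i ∈ range n, g i := by
  induction n with
  | zero => rfl
  | succ n ih => rw [sumTo, ih, sum_range_succ]

/-- The number of quadruples of types counted by the construction. -/
def count : ℕ := sumTo 12 fun x => sumTo 12 fun y => sumTo 12 fun z => sumTo 12 fun t =>
  bif (table.testBit ((12 * x + y) * 12 + z) && !(table.testBit ((12 * y + z) * 12 + t))) then 1 else 0

theorem count_eq : count = 7867 := by decide +kernel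

/-- The predicate on triples of types. -/
def F3 (w : Fin 3 → Fin 12) : Bool :=
  table.testBit ((12 * (w 0 : ℕ) + (w 1 : ℕ)) * 12 + (w 2 : ℕ))

theorem sum_cons {j m : ℕ} (g : (Fin (j + 1) → Fin m) → ℕ) :
    ∑ w, g w = ∑ a : Fin m, ∑ u : Fin j → Fin m, g (Fin.cons a u) := by
  rw [← Fintype.sum_prod_type']
  exact (Fintype.sum_equiv (Fin.consEquiv fun _ => Fin m) _ _ fun _ => rfl).symm

theorem card_F3 : (univ.filter fun w : Fin 4 → Fin 12 =>
    F3 (fun i => w i.castSucc) = true ∧ ¬ F3 (fun i => w i.succ) = true).card = 7867 := by
  rw [← count_eq, card_filter, sum_cons]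
  simp only [sum_cons, count, sumTo_eq]
  simp only [← Fin.sum_univ_eq_sum_range]
  refine sum_congr rfl fun x _ => sum_congr rfl fun y _ => sum_congr rfl fun z _ =>
    sum_congr rfl fun t _ => ?_
  rw [Fintype.sum_unique]
  change (if table.testBit ((12 * (x : ℕ) + y) * 12 + z) = true ∧
    ¬ table.testBit ((12 * (y : ℕ) + z) * 12 + t) = true then 1 else 0) = _
  cases table.testBit ((12 * (x : ℕ) + y) * 12 + z) <;>
    cases table.testBit ((12 * (y : ℕ) + z) * 12 + t) <;> simp

theorem three_lower {n : ℕ} (hn : 4 ≤ n) : (7867 : ℝ) / 20736 ≤ f n 3 := by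
  have := types_le (k := 3) (m := 12) (by norm_num) F3 hn
  rw [card_F3] at this
  norm_num at this ⊢
  exact this

end Pool.Agent.TrotterWinkler
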