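import Pool.Agent.Lib.MP_4e1dcd_co.Even
import Pool.Agent.Lib.MP_4e1dcd_co.Three

set_option autoImplicit false

namespace Pool.Agent.TrotterWinkler

open Finset Filter Topology MeasureTheory

/-- Monotonicity in `k`. -/
theorem f_le_succ {n k : ℕ} (hn : k + 2 ≤ n) : f n k ≤ f n (k + 1) := by
  classical
  refine le_of_forall_lt fun c hc => ?_
  obtain ⟨x, hx1, hx2⟩ := exists_between hc
  refine hx1.trans_le ?_
  obtain ⟨Ω, _, P, _, E, hE, hr⟩ := exists_of_lt_f hx2
  have hcard : ∀ S : KSet n (k + 1),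
      (univ.image fun i : Fin k => S.1.orderEmbOfFin S.2 i.castSucc).card = k := by
    intro S
    have : Function.Injective fun i : Fin k => S.1.orderEmbOfFin S.2 i.castSucc :=
      (S.1.orderEmbOfFin S.2).injective.comp (Fin.castSucc_injective k)
    rw [card_image_of_injective _ this, card_univ, Fintype.card_fin]
  refine le_f_of_forall hn P (fun S => E ⟨_, hcard S⟩) (fun S => hE _) x ?_
  rintro ⟨A, hA⟩ ⟨B, hB⟩ ⟨s, hs, rfl, rfl⟩
  have h1 : (fun i : Fin (k + 1) => s i.castSucc) =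
      (univ.image (fun i : Fin (k + 1) => s i.castSucc)).orderEmbOfFin hA :=
    orderEmbOfFin_unique hA (fun x => mem_image_of_mem _ (mem_univ _))
      (fun i j hij => hs (Fin.castSucc_lt_castSucc_iff.mpr hij))
  have h2 : (fun i : Fin (k + 1) => s i.succ) =
      (univ.image (fun i : Fin (k + 1) => s i.succ)).orderEmbOfFin hB :=
    orderEmbOfFin_unique hB (fun x => mem_image_of_mem _ (mem_univ _))
      (fun i j hij => hs (Fin.succ_lt_succ_iff.mpr hij))
  refine (hr _ _ ⟨fun i => s i.castSucc, fun i j hij => hs (Fin.castSucc_lt_castSucc_iff.mpr hij),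
    ?_, ?_⟩).le
  · show (univ.image fun i : Fin k => _) = _
    rw [← h1]
  · show (univ.image fun i : Fin k => _) = _
    rw [← h2]
    simp only [Fin.succ_castSucc]

theorem three_upper {L : ℝ} (hL : Tendsto (fun n => f n 3) atTop (𝓝 L)) : L ≤ 2 / 5 := by
  have h4 : Tendsto (fun n => f n 4) atTop (𝓝 (((2 : ℕ) : ℝ) / (2 * ((2 : ℕ) : ℝ) + 1))) :=
    even_case 2
  have h5 : (((2 : ℕ) : ℝ) / (2 * ((2 : ℕ) : ℝ) + 1)) = 2 / 5 := by norm_num
  rw [h5] at h4
  refine le_of_tendsto_of_tendsto hL h4 ?_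
  filter_upwards [eventually_ge_atTop 5] with n hn
  exact f_le_succ hn

end Pool.Agent.TrotterWinkler
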