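import Mathlib

/-!
Distance between Boolean functions on the leaves of the `N`-ary tree of depth `j`, modulo tree
automorphisms.
-/

set_option autoImplicit false

namespace Pool.Agent.TrotterWinkler

open Finset

/-- The inverse of `θ` respects prefixes (for the self-maps of a finite set of words, this says
that `θ` is an automorphism of the tree of words). -/
def PrefInj {j N : ℕ} (θ : (Fin j → Fin N) → (Fin j → Fin N)) : Prop :=
  ∀ (t : ℕ) (u v : Fin j → Fin N), (∀ i : Fin j, (i : ℕ) < t → θ u i = θ v i) →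
    ∀ i : Fin j, (i : ℕ) < t → u i = v i

theorem PrefInj.injective {j N : ℕ} {θ : (Fin j → Fin N) → (Fin j → Fin N)} (h : PrefInj θ) :
    Function.Injective θ := fun u v huv => funext fun i =>
  h j u v (fun i _ => by rw [huv]) i i.2

theorem PrefInj.id {j N : ℕ} : PrefInj (fun u : Fin j → Fin N => u) := fun _ _ _ h => h

theorem PrefInj.comp {j N : ℕ} {θ η : (Fin j → Fin N) → (Fin j → Fin N)} (hθ : PrefInj θ)
    (hη : PrefInj η) : PrefInj (fun u => η (θ u)) := fun t u v h =>
  hθ t u v (hη t _ _ h)

/-- Number of mismatches. -/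
def mis {j N : ℕ} (θ : (Fin j → Fin N) → (Fin j → Fin N)) (x y : (Fin j → Fin N) → Bool) : ℕ :=
  (univ.filter fun u => x u ≠ y (θ u)).card

/-- The distance. -/
noncomputable def dist' {j N : ℕ} (x y : (Fin j → Fin N) → Bool) : ℕ :=
  sInf {d | ∃ θ, PrefInj θ ∧ mis θ x y = d}

theorem exists_dist' {j N : ℕ} (x y : (Fin j → Fin N) → Bool) :
    ∃ θ, PrefInj θ ∧ mis θ x y = dist' x y :=
  Nat.sInf_mem (s := {d | ∃ θ, PrefInj θ ∧ mis θ x y = d}) ⟨_, _, PrefInj.id, rfl⟩

theorem dist'_le {j N : ℕ} (x y : (Fin j → Fin N) → Bool)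
    {θ : (Fin j → Fin N) → (Fin j → Fin N)} (h : PrefInj θ) : dist' x y ≤ mis θ x y :=
  Nat.sInf_le ⟨θ, h, rfl⟩

theorem dist'_le_pow {j N : ℕ} (x y : (Fin j → Fin N) → Bool) : dist' x y ≤ N ^ j := by
  refine (dist'_le x y PrefInj.id).trans ?_
  refine (card_le_univ _).trans ?_
  simp

theorem dist'_self {j N : ℕ} (x : (Fin j → Fin N) → Bool) : dist' x x = 0 := by
  refine Nat.le_zero.mp ((dist'_le x x PrefInj.id).trans ?_)
  simp [mis]

theorem dist'_triangle {j N : ℕ} (x y z : (Fin j → Fin N) → Bool) :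
    dist' x z ≤ dist' x y + dist' y z := by
  classical
  obtain ⟨θ, hθ, h1⟩ := exists_dist' x y
  obtain ⟨η, hη, h2⟩ := exists_dist' y z
  refine (dist'_le x z (hθ.comp hη)).trans ?_
  rw [← h1, ← h2]
  unfold mis
  have hcard : (univ.filter fun u => y u ≠ z (η u)).card =
      (univ.filter fun u => y (θ u) ≠ z (η (θ u))).card := by
    symm
    refine card_bij (fun u _ => θ u) (fun u hu => ?_) (fun u _ v _ huv => hθ.injective huv)
      (fun u hu => ?_)
    · simpa using hu
    · obtain ⟨v, rfl⟩ := (Finite.injective_iff_surjective.mp hθ.injective) u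
      exact ⟨v, by simpa using hu, rfl⟩
  rw [hcard]
  refine (card_le_card ?_).trans (card_union_le _ _)
  intro u hu
  simp only [mem_filter, mem_univ, true_and, mem_union] at hu ⊢
  by_contra hcon
  push Not at hcon
  exact hu (hcon.1.trans hcon.2)

/-- Matching the top-level children by a permutation. -/
theorem dist'_le_sum {j N : ℕ} (x y : (Fin (j + 1) → Fin N) → Bool) (π : Equiv.Perm (Fin N)) :
    dist' x y ≤ ∑ v, dist' (fun u => x (Fin.cons v u)) (fun u => y (Fin.cons (π v) u)) := by
  classical
  choose θ hθ hθ' using fun v => exists_dist' (fun u : Fin j → Fin N => x (Fin.cons v u))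
    (fun u => y (Fin.cons (π v) u))
  let Θ : (Fin (j + 1) → Fin N) → (Fin (j + 1) → Fin N) :=
    fun u => Fin.cons (π (u 0)) (θ (u 0) (Fin.tail u))
  have hΘ : PrefInj Θ := by
    intro t u v h i hi
    rcases Nat.eq_zero_or_pos t with rfl | ht
    · exact absurd hi (Nat.not_lt_zero _)
    have h0 : u 0 = v 0 := by
      have := h 0 ht
      simpa [Θ] using this
    refine Fin.cases (fun _ => h0) (fun i hi => ?_) i hi
    have := hθ (u 0) (t - 1) (Fin.tail u) (Fin.tail v) (fun i hi => by
      have := h i.succ (by simp; omega)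
      simpa [Θ, h0] using this) i (by simp at hi; omega)
    simpa [Fin.tail] using this
  refine (dist'_le x y hΘ).trans ?_
  simp only [← hθ']
  unfold mis
  rw [← card_sigma]
  refine card_le_card_of_injOn (fun u => (⟨u 0, Fin.tail u⟩ : (_ : Fin N) × (Fin j → Fin N)))
    (fun u hu => ?_) (fun u _ v _ huv => ?_)
  · simp only [coe_filter, mem_univ, true_and, Set.mem_ofPred_eq] at hu
    simpa [Θ] using hu
  · simp only [Sigma.mk.injEq, heq_eq_eq] at huv
    rw [← Fin.cons_self_tail u, ← Fin.cons_self_tail v, huv.1, huv.2]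

/-- Two colourings of `Fin N` can be matched by a permutation up to the difference of the colour
counts. -/
theorem exists_perm {N K : ℕ} (f g : Fin N → Fin K) : ∃ π : Equiv.Perm (Fin N),
    ((univ.filter fun v => f v ≠ g (π v)).card : ℝ) ≤
      ∑ C, |((univ.filter fun v => f v = C).card : ℝ) - ((univ.filter fun v => g v = C).card : ℝ)| := by
  classical
  obtain ⟨π, -, hπ⟩ := Finset.exists_max_image (univ : Finset (Equiv.Perm (Fin N)))
    (fun π => (univ.filter fun v => f v = g (π v)).card) ⟨1, mem_univ _⟩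
  refine ⟨π, ?_⟩
  have key : ∀ C, (∃ v, f v = C ∧ g (π v) ≠ C) → ∀ v, g (π v) = C → f v = C := by
    rintro C ⟨v, hv, hgv⟩ v' hv'
    by_contra hne
    have hvv' : v ≠ v' := fun h => hne (h ▸ hv)
    have hmax := hπ (π * Equiv.swap v v') (mem_univ _)
    have hlt : (univ.filter fun w => f w = g (π w)).card <
        (univ.filter fun w => f w = g ((π * Equiv.swap v v') w)).card := by
      refine card_lt_card ⟨?_, ?_⟩
      · intro w hw
        simp only [mem_filter, mem_univ, true_and] at hw ⊢
        have hwv : w ≠ v := fun h => hgv (by rw [← hv, ← h, hw])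
        have hwv' : w ≠ v' := fun h => hne (by rw [← h, hw, h, hv'])
        simpa [Equiv.Perm.mul_apply, Equiv.swap_apply_of_ne_of_ne hwv hwv'] using hw
      · intro hsub
        have hmem : v ∈ (univ.filter fun w => f w = g ((π * Equiv.swap v v') w)) := by
          rw [mem_filter]
          refine ⟨mem_univ _, ?_⟩
          rw [Equiv.Perm.mul_apply, Equiv.swap_apply_left, hv, hv']
        have := hsub hmem
        simp only [mem_filter, mem_univ, true_and] at this
        exact hgv (by rw [← this, hv])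
    exact absurd hmax (not_le.mpr hlt)
  have hsplit : ((univ.filter fun v => f v ≠ g (π v)).card : ℝ) =
      ∑ C, ((univ.filter fun v => f v = C ∧ g (π v) ≠ C).card : ℝ) := by
    rw [← Nat.cast_sum]
    congr 1
    rw [card_eq_sum_card_fiberwise (f := f) (t := univ) (fun _ _ => mem_coe.mpr (mem_univ _))]
    refine sum_congr rfl fun C _ => ?_
    congr 1
    ext v
    simp only [mem_filter, mem_univ, true_and]
    constructor
    · rintro ⟨h1, h2⟩
      exact ⟨h2, fun h => h1 (by rw [h2, h])⟩
    · rintro ⟨h1, h2⟩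
      exact ⟨fun h => h2 (by rw [← h, h1]), h1⟩
  rw [hsplit]
  refine sum_le_sum fun C _ => ?_
  by_cases hC : ∃ v, f v = C ∧ g (π v) ≠ C
  · have hall := key C hC
    have h1 : (univ.filter fun v => g v = C).card = (univ.filter fun v => g (π v) = C).card := by
      symm
      refine card_bij (fun v _ => π v) (fun v hv => ?_) (fun v _ w _ h => π.injective h)
        (fun w hw => ⟨π.symm w, ?_, ?_⟩)
      · simpa using hv
      · simpa using hw
      · simp
    have h2 : (univ.filter fun v => f v = C).card =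
        (univ.filter fun v => f v = C ∧ g (π v) ≠ C).card +
        (univ.filter fun v => g (π v) = C).card := by
      rw [← card_union_of_disjoint]
      · congr 1
        ext v
        simp only [mem_filter, mem_univ, true_and, mem_union]
        constructor
        · intro hv
          by_cases h : g (π v) = C
          · exact Or.inr h
          · exact Or.inl ⟨hv, h⟩
        · rintro (h | h)
          · exact h.1
          · exact hall v h
      · rw [disjoint_left]
        intro v hv hv'
        simp only [mem_filter, mem_univ, true_and] at hv hv'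
        exact hv.2 hv'
    rw [h1, h2]
    push_cast
    rw [add_sub_cancel_right]
    exact le_abs_self _
  · have : (univ.filter fun v => f v = C ∧ g (π v) ≠ C) = ∅ := by
      rw [filter_eq_empty_iff]
      intro v _ h
      exact hC ⟨v, h⟩
    rw [this]
    simp

/-- The distance is controlled by the numbers of children in the cells of a partition into cells
of small diameter. -/
theorem dist'_le_cells {j N K : ℕ} (c : ((Fin j → Fin N) → Bool) → Fin K) (δ : ℝ)
    (hc : ∀ x y, c x = c y → (dist' x y : ℝ) ≤ δ * (N : ℝ) ^ j) (hδ : 0 ≤ δ)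
    (x y : (Fin (j + 1) → Fin N) → Bool) :
    (dist' x y : ℝ) ≤ δ * (N : ℝ) ^ (j + 1) + (N : ℝ) ^ j *
      ∑ C, |((univ.filter fun v => c (fun u => x (Fin.cons v u)) = C).card : ℝ) -
        ((univ.filter fun v => c (fun u => y (Fin.cons v u)) = C).card : ℝ)| := by
  classical
  obtain ⟨π, hπ⟩ := exists_perm (fun v => c (fun u => x (Fin.cons v u)))
    (fun v => c (fun u => y (Fin.cons v u)))
  have h1 : (dist' x y : ℝ) ≤
      ∑ v, (dist' (fun u => x (Fin.cons v u)) (fun u => y (Fin.cons (π v) u)) : ℝ) := by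
    exact_mod_cast dist'_le_sum x y π
  refine h1.trans ?_
  have h2 : ∀ v, (dist' (fun u => x (Fin.cons v u)) (fun u => y (Fin.cons (π v) u)) : ℝ) ≤
      δ * (N : ℝ) ^ j + (N : ℝ) ^ j * (if c (fun u => x (Fin.cons v u)) ≠
        c (fun u => y (Fin.cons (π v) u)) then 1 else 0) := by
    intro v
    split_ifs with h
    · have : (dist' (fun u => x (Fin.cons v u)) (fun u => y (Fin.cons (π v) u)) : ℝ) ≤
        (N : ℝ) ^ j := by exact_mod_cast dist'_le_pow _ _
      have h' : 0 ≤ δ * (N : ℝ) ^ j := by positivity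
      linarith
    · have := hc _ _ (not_not.mp h)
      linarith
  refine (sum_le_sum fun v _ => h2 v).trans ?_
  rw [sum_add_distrib, sum_const, card_univ, Fintype.card_fin, nsmul_eq_mul, ← mul_sum]
  have h3 : (∑ v : Fin N, (if c (fun u => x (Fin.cons v u)) ≠
      c (fun u => y (Fin.cons (π v) u)) then (1 : ℝ) else 0)) =
      ((univ.filter fun v => c (fun u => x (Fin.cons v u)) ≠
        c (fun u => y (Fin.cons (π v) u))).card : ℝ) := by
    rw [sum_boole]
  rw [h3]
  have h4 := mul_le_mul_of_nonneg_left hπ (by positivity : (0 : ℝ) ≤ (N : ℝ) ^ j)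
  have h5 : (N : ℝ) * (δ * (N : ℝ) ^ j) = δ * (N : ℝ) ^ (j + 1) := by ring
  rw [h5]
  exact add_le_add le_rfl h4

/-- Total boundedness, uniformly in `N`. -/
theorem exists_cells (j : ℕ) : ∀ δ : ℝ, 0 < δ → ∃ K : ℕ, ∀ N : ℕ,
    ∃ c : ((Fin j → Fin N) → Bool) → Fin K,
      ∀ x y, c x = c y → (dist' x y : ℝ) ≤ δ * (N : ℝ) ^ j := by
  classical
  induction j with
  | zero =>
    intro δ hδ
    refine ⟨2, fun N => ⟨fun x => if x Fin.elim0 = true then 1 else 0, fun x y hxy => ?_⟩⟩
    have hxy' : x = y := by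
      funext u
      have hu : u = Fin.elim0 := Subsingleton.elim _ _
      rw [hu]
      by_cases hx : x Fin.elim0 = true <;> by_cases hy : y Fin.elim0 = true
      · rw [hx, hy]
      · simp [hx, hy] at hxy
      · simp [hx, hy] at hxy
      · simp only [Bool.not_eq_true] at hx hy
        rw [hx, hy]
    rw [hxy', dist'_self]
    simp [hδ.le]
  | succ j ih =>
    intro δ hδ
    obtain ⟨K, hK⟩ := ih (δ / 2) (by positivity)
    obtain ⟨R, hR⟩ := exists_nat_gt (2 * K / δ)
    have hR0 : 0 < R := by
      rcases Nat.eq_zero_or_pos R with h | h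
      · subst h
        have : (0 : ℝ) ≤ 2 * K / δ := by positivity
        simp at hR
        linarith
      · exact h
    let e := Fintype.equivFin (Fin K → Fin (R + 1))
    refine ⟨Fintype.card (Fin K → Fin (R + 1)), fun N => ?_⟩
    obtain ⟨c, hc⟩ := hK N
    let cnt : ((Fin (j + 1) → Fin N) → Bool) → Fin K → ℕ := fun x C =>
      (univ.filter fun v => c (fun u => x (Fin.cons v u)) = C).card
    have hcnt : ∀ x C, cnt x C ≤ N := fun x C => (card_le_univ _).trans (by simp)
    have hdiv : ∀ x C, cnt x C * R / N < R + 1 := fun x C => by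
      rcases Nat.eq_zero_or_pos N with h | h
      · simp [h]
      · refine Nat.lt_succ_of_le (Nat.div_le_of_le_mul ?_)
        exact Nat.mul_le_mul_right R (hcnt x C)
    refine ⟨fun x => e fun C => ⟨cnt x C * R / N, hdiv x C⟩, fun x y hxy => ?_⟩
    have heq : ∀ C, cnt x C * R / N = cnt y C * R / N := fun C => by
      have := congrFun (e.injective hxy) C
      simpa using this
    have hb : ∀ C, |(cnt x C : ℝ) - (cnt y C : ℝ)| ≤ (N : ℝ) / R := by
      intro C
      have hRr : (0 : ℝ) < R := by exact_mod_cast hR0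
      rcases Nat.eq_zero_or_pos N with h | h
      · have h1 := hcnt x C
        have h2 := hcnt y C
        rw [h] at h1 h2
        have h1' : cnt x C = 0 := Nat.le_zero.mp h1
        have h2' : cnt y C = 0 := Nat.le_zero.mp h2
        rw [h1', h2', h]
        simp
      · have h1 := Nat.div_add_mod (cnt x C * R) N
        have h2 := Nat.div_add_mod (cnt y C * R) N
        have h3 := Nat.mod_lt (cnt x C * R) h
        have h4 := Nat.mod_lt (cnt y C * R) h
        rw [heq C] at h1
        rw [le_div_iff₀ hRr, ← abs_of_pos hRr, ← abs_mul, sub_mul, abs_le]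
        have h1' : (N : ℝ) * ((cnt y C * R / N : ℕ) : ℝ) + ((cnt x C * R % N : ℕ) : ℝ) =
          (cnt x C : ℝ) * R := by exact_mod_cast h1
        have h2' : (N : ℝ) * ((cnt y C * R / N : ℕ) : ℝ) + ((cnt y C * R % N : ℕ) : ℝ) =
          (cnt y C : ℝ) * R := by exact_mod_cast h2
        have h3' : ((cnt x C * R % N : ℕ) : ℝ) ≤ (N : ℝ) := by exact_mod_cast h3.le
        have h4' : ((cnt y C * R % N : ℕ) : ℝ) ≤ (N : ℝ) := by exact_mod_cast h4.le
        have h5 : (0 : ℝ) ≤ ((cnt x C * R % N : ℕ) : ℝ) := by positivity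
        have h6 : (0 : ℝ) ≤ ((cnt y C * R % N : ℕ) : ℝ) := by positivity
        constructor <;> linarith
    refine (dist'_le_cells c (δ / 2) hc (by positivity) x y).trans ?_
    have hsum : ∑ C, |(cnt x C : ℝ) - (cnt y C : ℝ)| ≤ (δ / 2) * N := by
      refine (sum_le_sum fun C _ => hb C).trans ?_
      rw [sum_const, card_univ, Fintype.card_fin, nsmul_eq_mul]
      have hRr : (0 : ℝ) < R := by exact_mod_cast hR0
      have h7 : (K : ℝ) / R ≤ δ / 2 := by
        rw [div_le_iff₀ hRr]
        rw [div_lt_iff₀ hδ] at hR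
        linarith
      calc (K : ℝ) * (N / R) = (K / R) * N := by ring
        _ ≤ (δ / 2) * N := by gcongr
    have h8 : (N : ℝ) ^ j * ∑ C, |(cnt x C : ℝ) - (cnt y C : ℝ)| ≤ (N : ℝ) ^ j * ((δ / 2) * N) := by
      gcongr
    calc δ / 2 * (N : ℝ) ^ (j + 1) + (N : ℝ) ^ j * _ ≤
        δ / 2 * (N : ℝ) ^ (j + 1) + (N : ℝ) ^ j * ((δ / 2) * N) := by
          exact add_le_add le_rfl h8
      _ = δ * (N : ℝ) ^ (j + 1) := by ring

end Pool.Agent.TrotterWinkler
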