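import Pool.Agent.Lib.MP_4e1dcd_co.Spread
import Pool.Agent.Lib.MP_4e1dcd_co.Tree

/-!
Moving one block of positions at a time does not change the law of a spreadable array up to a tree
automorphism, up to a small error.
-/

set_option autoImplicit false

namespace Pool.Agent.TrotterWinkler

open Finset

/-- The array seen on the blocks `β`, with the positions in `S` already chosen; block `b` consists
of the positions `b * N + v`, `v < N`. -/
def arr (x : Finset ℕ → Bool) (N : ℕ) (S : Finset ℕ) {j : ℕ} (β : Fin j → ℕ) :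
    (Fin j → Fin N) → Bool :=
  fun u => x (S ∪ univ.image fun i => β i * N + (u i : ℕ))

theorem arr_cons (x : Finset ℕ → Bool) (N : ℕ) (S : Finset ℕ) {j : ℕ} (β : Fin (j + 1) → ℕ)
    (v : Fin N) : (fun u => arr x N S β (Fin.cons v u)) =
      arr x N (insert (β 0 * N + (v : ℕ)) S) (Fin.tail β) := by
  funext u
  unfold arr
  congr 1
  ext a
  simp only [mem_union, mem_image, mem_univ, true_and, mem_insert, Fin.exists_fin_succ,
    Fin.cons_zero, Fin.cons_succ, Fin.tail]
  constructor
  · rintro (h | h | h)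
    · exact Or.inl (Or.inr h)
    · exact Or.inl (Or.inl h.symm)
    · exact Or.inr h
  · rintro ((h | h) | h)
    · exact Or.inr (Or.inl h.symm)
    · exact Or.inl h
    · exact Or.inr (Or.inr h)

namespace Model

variable {k : ℕ} {r : ℝ} {M : ℕ} (D : Model k r M)

attribute [local instance] Model.fin

/-- Expectation in the model. -/
noncomputable def Ex (g : D.Ω → ℝ) : ℝ := ∑ ω, D.w ω * g ω

theorem Ex_add (g h : D.Ω → ℝ) : D.Ex (fun ω => g ω + h ω) = D.Ex g + D.Ex h := by
  unfold Ex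
  rw [← sum_add_distrib]
  exact sum_congr rfl fun ω _ => by ring

theorem Ex_mul (c : ℝ) (g : D.Ω → ℝ) : D.Ex (fun ω => c * g ω) = c * D.Ex g := by
  unfold Ex
  rw [mul_sum]
  exact sum_congr rfl fun ω _ => by ring

theorem Ex_sum {ι : Type} (s : Finset ι) (g : ι → D.Ω → ℝ) :
    D.Ex (fun ω => ∑ i ∈ s, g i ω) = ∑ i ∈ s, D.Ex (g i) := by
  unfold Ex
  rw [sum_comm]
  exact sum_congr rfl fun ω _ => by rw [mul_sum]

theorem Ex_mono {g h : D.Ω → ℝ} (H : ∀ ω, g ω ≤ h ω) : D.Ex g ≤ D.Ex h :=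
  sum_le_sum fun ω _ => mul_le_mul_of_nonneg_left (H ω) (D.w_nonneg ω)

theorem Ex_const (c : ℝ) : D.Ex (fun _ => c) = c := by
  unfold Ex
  rw [← sum_mul, D.w_sum, one_mul]

/-- The indicator that the array after choosing the position `a` lies in the cell `C`. -/
def xi (N : ℕ) (S : Finset ℕ) {j K : ℕ} (γ : Fin j → ℕ) (c : ((Fin j → Fin N) → Bool) → Fin K)
    (C : Fin K) (a : ℕ) (x : Finset ℕ → Bool) : ℝ :=
  if c (arr x N (insert a S) γ) = C then 1 else 0

theorem xi_nonneg (N : ℕ) (S : Finset ℕ) {j K : ℕ} (γ : Fin j → ℕ)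
    (c : ((Fin j → Fin N) → Bool) → Fin K) (C : Fin K) (a : ℕ) (x : Finset ℕ → Bool) :
    0 ≤ xi N S γ c C a x := by
  unfold xi; split_ifs <;> norm_num

theorem xi_le_one (N : ℕ) (S : Finset ℕ) {j K : ℕ} (γ : Fin j → ℕ)
    (c : ((Fin j → Fin N) → Bool) → Fin K) (C : Fin K) (a : ℕ) (x : Finset ℕ → Bool) :
    xi N S γ c C a x ≤ 1 := by
  unfold xi; split_ifs <;> norm_num

theorem xi_sq (N : ℕ) (S : Finset ℕ) {j K : ℕ} (γ : Fin j → ℕ)
    (c : ((Fin j → Fin N) → Bool) → Fin K) (C : Fin K) (a : ℕ) (x : Finset ℕ → Bool) :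
    xi N S γ c C a x * xi N S γ c C a x = xi N S γ c C a x := by
  unfold xi; split_ifs <;> norm_num

/-- Exchanging the pair of positions `a < a'` for `e < e'` in the gap. -/
theorem Ex_pair {N : ℕ} {S : Finset ℕ} {j K : ℕ} {γ : Fin j → ℕ}
    (c : ((Fin j → Fin N) → Bool) → Fin K) (C : Fin K) {lo hi : ℕ}
    (hS : ∀ i ∈ S, i < lo) (hγ : ∀ i, hi ≤ γ i * N) (hγM : ∀ i, γ i * N + N ≤ M)
    (hhiM : hi ≤ M) {a a' e e' : ℕ} (ha : lo ≤ a) (haa' : a < a') (ha' : a' < hi)
    (he : lo ≤ e) (hee' : e < e') (he' : e' < hi) :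
    D.Ex (fun ω => xi N S γ c C a (D.X ω) * xi N S γ c C a' (D.X ω)) =
      D.Ex (fun ω => xi N S γ c C e (D.X ω) * xi N S γ c C e' (D.X ω)) := by
  classical
  let Q : Finset ℕ := univ.biUnion fun i : Fin j => univ.image fun v : Fin N => γ i * N + (v : ℕ)
  let T : Finset ℕ := S ∪ {a, a'} ∪ Q
  let ρ : ℕ → ℕ := fun i => if i = a then e else if i = a' then e' else i
  have hQ : ∀ i ∈ Q, hi ≤ i ∧ i < M := by
    intro i hiQ
    simp only [Q, mem_biUnion, mem_univ, true_and, mem_image] at hiQ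
    obtain ⟨l, v, rfl⟩ := hiQ
    have h1 := hγ l
    have h2 := hγM l
    have h3 := v.2
    omega
  have hTcases : ∀ i ∈ T, (i < lo ∧ i ∈ S) ∨ i = a ∨ i = a' ∨ (hi ≤ i ∧ i < M) := by
    intro i hiT
    simp only [T, mem_union, mem_insert, mem_singleton] at hiT
    rcases hiT with (h | h | h) | h
    · exact Or.inl ⟨hS i h, h⟩
    · exact Or.inr (Or.inl h)
    · exact Or.inr (Or.inr (Or.inl h))
    · exact Or.inr (Or.inr (Or.inr (hQ i h)))
  have hρa : ρ a = e := by simp [ρ]
  have hρa' : ρ a' = e' := by simp [ρ, haa'.ne']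
  have hρ_of : ∀ i, i ≠ a → i ≠ a' → ρ i = i := fun i h1 h2 => by simp [ρ, h1, h2]
  have hρS : ∀ i ∈ S, ρ i = i := fun i hiS => by
    have := hS i hiS
    exact hρ_of i (by omega) (by omega)
  have hρQ : ∀ i, hi ≤ i → ρ i = i := fun i hiS => hρ_of i (by omega) (by omega)
  have hT : ∀ i ∈ T, i < M := by
    intro i hiT
    rcases hTcases i hiT with h | h | h | h <;> omega
  have hρT : ∀ i ∈ T, ρ i < M := by
    intro i hiT
    rcases hTcases i hiT with h | h | h | h
    · rw [hρS i h.2]; omega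
    · rw [h, hρa]; omega
    · rw [h, hρa']; omega
    · rw [hρQ i h.1]; omega
  have hmono : StrictMonoOn ρ T := by
    intro i hiT l hlT hil
    rcases hTcases i hiT with h | h | h | h <;> rcases hTcases l hlT with h' | h' | h' | h'
    · rw [hρS i h.2, hρS l h'.2]; exact hil
    · rw [hρS i h.2, h', hρa]; omega
    · rw [hρS i h.2, h', hρa']; omega
    · rw [hρS i h.2, hρQ l h'.1]; exact hil
    · omega
    · omega
    · rw [h, h', hρa, hρa']; exact hee'
    · rw [h, hρa, hρQ l h'.1]; omega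
    · omega
    · omega
    · omega
    · rw [h, hρa', hρQ l h'.1]; omega
    · omega
    · omega
    · omega
    · rw [hρQ i h.1, hρQ l h'.1]; exact hil
  have hsub : ∀ b ∈ ({a, a'} : Finset ℕ), ∀ u : Fin j → Fin N,
      (insert b S ∪ univ.image fun i => γ i * N + (u i : ℕ)) ⊆ T := by
    intro b hb u i hi'
    simp only [mem_union, mem_insert, mem_image, mem_univ, true_and] at hi'
    simp only [T, mem_union]
    rcases hi' with (h | h) | ⟨l, h⟩
    · exact Or.inl (Or.inr (h ▸ hb))
    · exact Or.inl (Or.inl h)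
    · refine Or.inr ?_
      simp only [Q, mem_biUnion, mem_univ, true_and, mem_image]
      exact ⟨l, u l, h⟩
  have himg : ∀ b, ∀ u : Fin j → Fin N,
      (insert b S ∪ univ.image fun i => γ i * N + (u i : ℕ)).image ρ =
      insert (ρ b) S ∪ univ.image fun i => γ i * N + (u i : ℕ) := by
    intro b u
    rw [image_union, image_insert, image_image]
    congr 1
    · congr 1
      conv_rhs => rw [← image_id (s := S)]
      exact image_congr fun i hi' => by simpa using hρS i hi'
    · refine image_congr fun i _ => ?_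
      simp only [Function.comp]
      exact hρQ _ ((hγ i).trans (Nat.le_add_right _ _))
  have hloc := D.spread T ρ hT hmono hρT
    (fun x => xi N S γ c C a x * xi N S γ c C a' x) (by
      intro x y hxy
      have h1 : ∀ b ∈ ({a, a'} : Finset ℕ), arr x N (insert b S) γ = arr y N (insert b S) γ :=
        fun b hb => funext fun u => hxy _ (hsub b hb u)
      dsimp only [xi]
      rw [h1 a (by simp), h1 a' (by simp)])
  unfold Ex
  rw [hloc]
  refine sum_congr rfl fun ω _ => ?_
  have h2 : ∀ b, arr (fun S => D.X ω (S.image ρ)) N (insert b S) γ =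
      arr (D.X ω) N (insert (ρ b) S) γ := fun b => funext fun u => by
    show D.X ω (image ρ _) = D.X ω _
    rw [himg]
  dsimp only [xi]
  rw [h2, h2, hρa, hρa']

end Model

end Pool.Agent.TrotterWinkler
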