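import Pool.Agent.Lib.MP_4e1dcd_co.Move

set_option autoImplicit false

namespace Pool.Agent.TrotterWinkler

open Finset

namespace Model

variable {k : ℕ} {r : ℝ} {M : ℕ} (D : Model k r M)

attribute [local instance] Model.fin

theorem Ex_count_sq {N : ℕ} (hN : 0 < N) {S : Finset ℕ} {j K : ℕ} {γ : Fin j → ℕ}
    (c : ((Fin j → Fin N) → Bool) → Fin K) (C : Fin K) {b b' : ℕ}
    (hbb' : b < b') (hγ : ∀ i, b' < γ i) (hS : ∀ i ∈ S, i < b * N)
    (hγM : ∀ i, γ i * N + N ≤ M) (hb'M : b' * N + N ≤ M) :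
    D.Ex (fun ω => (∑ v : Fin N, xi N S γ c C (b * N + (v : ℕ)) (D.X ω) -
      ∑ v : Fin N, xi N S γ c C (b' * N + (v : ℕ)) (D.X ω)) ^ 2) ≤ 2 * N := by
  classical
  set f : Fin N → D.Ω → ℝ := fun v ω => xi N S γ c C (b * N + (v : ℕ)) (D.X ω) with hf
  set g : Fin N → D.Ω → ℝ := fun v ω => xi N S γ c C (b' * N + (v : ℕ)) (D.X ω) with hg
  have hbN : b * N + N ≤ b' * N := by
    calc b * N + N = (b + 1) * N := by ring
      _ ≤ b' * N := Nat.mul_le_mul_right N hbb'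
  have hhi : ∀ i, b' * N + N ≤ γ i * N := fun i => by
    calc b' * N + N = (b' + 1) * N := by ring
      _ ≤ γ i * N := Nat.mul_le_mul_right N (hγ i)
  have hpair : ∀ {a a' e e' : ℕ}, b * N ≤ a → a < a' → a' < b' * N + N → b * N ≤ e → e < e' →
      e' < b' * N + N → D.Ex (fun ω => xi N S γ c C a (D.X ω) * xi N S γ c C a' (D.X ω)) =
      D.Ex (fun ω => xi N S γ c C e (D.X ω) * xi N S γ c C e' (D.X ω)) := by
    intro a a' e e' h1 h2 h3 h4 h5 h6
    exact D.Ex_pair c C hS hhi hγM hb'M h1 h2 h3 h4 h5 h6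
  set q : ℝ := D.Ex (fun ω => xi N S γ c C (b * N) (D.X ω) * xi N S γ c C (b' * N) (D.X ω))
    with hq
  have hq0 : 0 ≤ q := by
    rw [← D.Ex_const 0]
    exact D.Ex_mono fun ω => mul_nonneg (xi_nonneg _ _ _ _ _ _ _) (xi_nonneg _ _ _ _ _ _ _)
  have hfg : ∀ v w, D.Ex (fun ω => f v ω * g w ω) = q := fun v w => by
    have hv := v.2
    have hw := w.2
    exact hpair (by omega) (by omega) (by omega) (by omega) (by omega) (by omega)
  have hff : ∀ v w, v < w → D.Ex (fun ω => f v ω * f w ω) = q := fun v w hvw => by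
    have hv := v.2
    have hw := w.2
    have hvw' : (v : ℕ) < w := hvw
    exact hpair (by omega) (by omega) (by omega) (by omega) (by omega) (by omega)
  have hgg : ∀ v w, v < w → D.Ex (fun ω => g v ω * g w ω) = q := fun v w hvw => by
    have hv := v.2
    have hw := w.2
    have hvw' : (v : ℕ) < w := hvw
    exact hpair (by omega) (by omega) (by omega) (by omega) (by omega) (by omega)
  have hff' : ∀ v w, v ≠ w → D.Ex (fun ω => f v ω * f w ω) = q := fun v w hvw => by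
    rcases lt_or_gt_of_ne hvw with h | h
    · exact hff v w h
    · have := hff w v h
      simpa only [mul_comm] using this
  have hgg' : ∀ v w, v ≠ w → D.Ex (fun ω => g v ω * g w ω) = q := fun v w hvw => by
    rcases lt_or_gt_of_ne hvw with h | h
    · exact hgg v w h
    · have := hgg w v h
      simpa only [mul_comm] using this
  have hone : ∀ (a : ℕ), D.Ex (fun ω => xi N S γ c C a (D.X ω) * xi N S γ c C a (D.X ω)) ≤ 1 := by
    intro a
    rw [← D.Ex_const 1]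
    exact D.Ex_mono fun ω => by rw [xi_sq]; exact xi_le_one _ _ _ _ _ _ _
  have hexp : ∀ ω, (∑ v, f v ω - ∑ v, g v ω) ^ 2 =
      ∑ v, ∑ w, (f v ω * f w ω + g v ω * g w ω + (-2) * (f v ω * g w ω)) := by
    intro ω
    simp only [sum_add_distrib, ← mul_sum, ← sum_mul]
    ring
  have hterm : ∀ v w, D.Ex (fun ω => f v ω * f w ω + g v ω * g w ω + (-2) * (f v ω * g w ω)) ≤
      if v = w then 2 else 0 := by
    intro v w
    rw [D.Ex_add, D.Ex_add, D.Ex_mul, hfg]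
    split_ifs with h
    · subst h
      have h1 := hone (b * N + (v : ℕ))
      have h2 := hone (b' * N + (v : ℕ))
      have h1' : D.Ex (fun ω => f v ω * f v ω) ≤ 1 := h1
      have h2' : D.Ex (fun ω => g v ω * g v ω) ≤ 1 := h2
      linarith
    · rw [hff' v w h, hgg' v w h]
      linarith
  refine le_trans (le_of_eq (congrArg D.Ex (funext hexp))) ?_
  rw [D.Ex_sum]
  simp only [D.Ex_sum]
  refine (sum_le_sum fun v _ => sum_le_sum fun w _ => hterm v w).trans ?_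
  simp
  linarith

theorem Ex_count_abs {N : ℕ} (hN : 0 < N) {S : Finset ℕ} {j K : ℕ} {γ : Fin j → ℕ}
    (c : ((Fin j → Fin N) → Bool) → Fin K) (C : Fin K) {b b' : ℕ}
    (hbb' : b < b') (hγ : ∀ i, b' < γ i) (hS : ∀ i ∈ S, i < b * N)
    (hγM : ∀ i, γ i * N + N ≤ M) (hb'M : b' * N + N ≤ M) :
    D.Ex (fun ω => |∑ v : Fin N, xi N S γ c C (b * N + (v : ℕ)) (D.X ω) -
      ∑ v : Fin N, xi N S γ c C (b' * N + (v : ℕ)) (D.X ω)|) ≤ Real.sqrt (2 * N) := by
  have hsq := D.Ex_count_sq hN c C hbb' hγ hS hγM hb'M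
  set s := Real.sqrt (2 * N) with hs
  have hNr : (0 : ℝ) < 2 * N := by positivity
  have hs0 : 0 < s := Real.sqrt_pos.mpr hNr
  have hss : s * s = 2 * N := Real.mul_self_sqrt hNr.le
  have hpt : ∀ t : ℝ, |t| ≤ s / 2 + (1 / (2 * s)) * t ^ 2 := by
    intro t
    have h1 : 0 ≤ (|t| - s) ^ 2 := sq_nonneg _
    have h2 : |t| ^ 2 = t ^ 2 := sq_abs t
    have h3 : s / 2 + (1 / (2 * s)) * t ^ 2 - |t| = (|t| - s) ^ 2 / (2 * s) := by
      rw [← h2]
      field_simp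
      ring
    have h4 : 0 ≤ (|t| - s) ^ 2 / (2 * s) := by positivity
    linarith
  refine (D.Ex_mono fun ω => hpt _).trans ?_
  rw [D.Ex_add, D.Ex_mul, D.Ex_const]
  have h5 : (1 / (2 * s)) * D.Ex (fun ω => (∑ v : Fin N, xi N S γ c C (b * N + (v : ℕ)) (D.X ω) -
      ∑ v : Fin N, xi N S γ c C (b' * N + (v : ℕ)) (D.X ω)) ^ 2) ≤ (1 / (2 * s)) * (2 * N) :=
    mul_le_mul_of_nonneg_left hsq (by positivity)
  have h6 : (1 / (2 * s)) * (2 * N) = s / 2 := by
    rw [← hss]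
    field_simp
  linarith

end Model

attribute [local instance] Model.fin

/-- Moving the first block. -/
theorem move_first (j : ℕ) (ε : ℝ) (hε : 0 < ε) : ∃ N0 : ℕ, ∀ N : ℕ, N0 ≤ N →
    ∀ {k : ℕ} {r : ℝ} {M : ℕ} (D : Model k r M) (S : Finset ℕ) (β β' : Fin (j + 1) → ℕ),
    Fin.tail β = Fin.tail β' → β 0 < β' 0 → (∀ i : Fin j, β' 0 < β i.succ) →
    (∀ i ∈ S, i < β 0 * N) → (∀ i : Fin j, β i.succ * N + N ≤ M) → β' 0 * N + N ≤ M →
    D.Ex (fun ω => (dist' (arr (D.X ω) N S β) (arr (D.X ω) N S β') : ℝ)) ≤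
      ε * (N : ℝ) ^ (j + 1) := by
  classical
  obtain ⟨K, hK⟩ := exists_cells j (ε / 2) (by positivity)
  obtain ⟨N0, hN0⟩ := exists_nat_gt (8 * (K : ℝ) ^ 2 / ε ^ 2)
  refine ⟨N0 + 1, fun N hN k r M D S β β' htail hlt hlt' hS hM hM' => ?_⟩
  have hNpos : 0 < N := by omega
  obtain ⟨c, hc⟩ := hK N
  have hcount : ∀ (x : Finset ℕ → Bool) (α : Fin (j + 1) → ℕ) (C : Fin K),
      ((univ.filter fun v => c (fun u => arr x N S α (Fin.cons v u)) = C).card : ℝ) =
      ∑ v : Fin N, Model.xi N S (Fin.tail α) c C (α 0 * N + (v : ℕ)) x := by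
    intro x α C
    simp only [Model.xi, ← arr_cons]
    rw [sum_boole]
  have hpt : ∀ ω, (dist' (arr (D.X ω) N S β) (arr (D.X ω) N S β') : ℝ) ≤
      (ε / 2) * (N : ℝ) ^ (j + 1) + (N : ℝ) ^ j * ∑ C : Fin K,
        |∑ v : Fin N, Model.xi N S (Fin.tail β) c C (β 0 * N + (v : ℕ)) (D.X ω) -
        ∑ v : Fin N, Model.xi N S (Fin.tail β) c C (β' 0 * N + (v : ℕ)) (D.X ω)| := by
    intro ω
    have := dist'_le_cells c (ε / 2) hc (by positivity) (arr (D.X ω) N S β) (arr (D.X ω) N S β')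
    simp only [hcount] at this
    rw [← htail] at this
    exact this
  refine (D.Ex_mono hpt).trans ?_
  rw [D.Ex_add, D.Ex_const, D.Ex_mul, D.Ex_sum]
  have hsum : ∑ C : Fin K, D.Ex (fun ω =>
      |∑ v : Fin N, Model.xi N S (Fin.tail β) c C (β 0 * N + (v : ℕ)) (D.X ω) -
        ∑ v : Fin N, Model.xi N S (Fin.tail β) c C (β' 0 * N + (v : ℕ)) (D.X ω)|) ≤
      K * Real.sqrt (2 * N) := by
    refine (sum_le_sum fun C _ => D.Ex_count_abs hNpos c C hlt (fun i => hlt' i) hS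
      (fun i => hM i) hM').trans ?_
    simp
  have hKs : K * Real.sqrt (2 * N) ≤ (ε / 2) * N := by
    have h1 : 8 * (K : ℝ) ^ 2 / ε ^ 2 < N := hN0.trans_le (by exact_mod_cast (by omega : N0 ≤ N))
    rw [div_lt_iff₀ (by positivity)] at h1
    have h2 : (K * Real.sqrt (2 * N)) ^ 2 ≤ ((ε / 2) * N) ^ 2 := by
      rw [mul_pow, Real.sq_sqrt (by positivity)]
      have h3 : (0 : ℝ) < N := by exact_mod_cast hNpos
      nlinarith
    exact (sq_le_sq₀ (by positivity) (by positivity)).mp h2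
  have h4 : (N : ℝ) ^ j * ∑ C : Fin K, D.Ex (fun ω =>
      |∑ v : Fin N, Model.xi N S (Fin.tail β) c C (β 0 * N + (v : ℕ)) (D.X ω) -
        ∑ v : Fin N, Model.xi N S (Fin.tail β) c C (β' 0 * N + (v : ℕ)) (D.X ω)|) ≤
      (N : ℝ) ^ j * ((ε / 2) * N) :=
    mul_le_mul_of_nonneg_left (hsum.trans hKs) (by positivity)
  calc _ ≤ ε / 2 * (N : ℝ) ^ (j + 1) + (N : ℝ) ^ j * ((ε / 2) * N) := add_le_add le_rfl h4
    _ = ε * (N : ℝ) ^ (j + 1) := by ring

end Pool.Agent.TrotterWinkler
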