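import Pool.Agent.Lib.MP_4e1dcd_co.Move2

set_option autoImplicit false

namespace Pool.Agent.TrotterWinkler

open Finset

attribute [local instance] Model.fin

/-- Moving one block. -/
theorem move_any (m : ℕ) (ε : ℝ) (hε : 0 < ε) : ∃ N0 : ℕ, ∀ N : ℕ, N0 ≤ N →
    ∀ {k : ℕ} {r : ℝ} {M : ℕ} (D : Model k r M) (S : Finset ℕ) (β β' : Fin m → ℕ) (l : Fin m),
    (∀ i, i ≠ l → β i = β' i) → β l < β' l → StrictMono β → StrictMono β' →
    (∀ i ∈ S, ∀ l', i < β l' * N) → (∀ i, β i * N + N ≤ M) → (∀ i, β' i * N + N ≤ M) →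
    D.Ex (fun ω => (dist' (arr (D.X ω) N S β) (arr (D.X ω) N S β') : ℝ)) ≤
      ε * (N : ℝ) ^ m := by
  classical
  induction m with
  | zero => exact ⟨0, fun N _ k r M D S β β' l => l.elim0⟩
  | succ m ih =>
    obtain ⟨N1, hN1⟩ := move_first m ε hε
    obtain ⟨N2, hN2⟩ := ih
    refine ⟨max N1 N2, fun N hN k r M D S β β' l hne hlt hβ hβ' hS hM hM' => ?_⟩
    have hNN1 : N1 ≤ N := (le_max_left _ _).trans hN
    have hNN2 : N2 ≤ N := (le_max_right _ _).trans hN
    rcases Fin.eq_zero_or_eq_succ l with rfl | ⟨l', rfl⟩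
    · refine hN1 N hNN1 D S β β' ?_ hlt (fun i => ?_) (fun i hi => hS i hi 0)
        (fun i => hM _) (hM' 0)
      · funext i
        exact hne _ (Fin.succ_ne_zero i)
      · rw [hne _ (Fin.succ_ne_zero i)]
        exact hβ' (Fin.succ_pos i)
    · have h0 : β 0 = β' 0 := hne 0 (Fin.succ_ne_zero l').symm
      have hpt : ∀ ω, (dist' (arr (D.X ω) N S β) (arr (D.X ω) N S β') : ℝ) ≤
          ∑ v : Fin N, (dist' (arr (D.X ω) N (insert (β 0 * N + (v : ℕ)) S) (Fin.tail β))
            (arr (D.X ω) N (insert (β 0 * N + (v : ℕ)) S) (Fin.tail β')) : ℝ) := by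
        intro ω
        have := dist'_le_sum (arr (D.X ω) N S β) (arr (D.X ω) N S β') 1
        simp only [Equiv.Perm.one_apply, arr_cons, ← h0] at this
        exact_mod_cast this
      refine (D.Ex_mono hpt).trans ?_
      rw [D.Ex_sum]
      have hv : ∀ v : Fin N, D.Ex (fun ω =>
          (dist' (arr (D.X ω) N (insert (β 0 * N + (v : ℕ)) S) (Fin.tail β))
            (arr (D.X ω) N (insert (β 0 * N + (v : ℕ)) S) (Fin.tail β')) : ℝ)) ≤
          ε * (N : ℝ) ^ m := by
        intro v
        refine hN2 N hNN2 D _ (Fin.tail β) (Fin.tail β') l' (fun i hi => ?_) hlt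
          (fun i i' h => hβ (Fin.succ_lt_succ_iff.mpr h))
          (fun i i' h => hβ' (Fin.succ_lt_succ_iff.mpr h)) (fun i hi l'' => ?_)
          (fun i => hM _) (fun i => hM' _)
        · exact hne _ (fun h => hi (Fin.succ_injective _ h))
        · rcases mem_insert.mp hi with h | h
          · rw [h]
            have h1 : β 0 < β l''.succ := hβ (Fin.succ_pos _)
            have h2 : (β 0 + 1) * N ≤ β l''.succ * N := Nat.mul_le_mul_right N h1
            have h3 := v.2
            show β 0 * N + (v : ℕ) < β l''.succ * N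
            have h4 : (β 0 + 1) * N = β 0 * N + N := by ring
            omega
          · exact hS i h _
      refine (sum_le_sum fun v _ => hv v).trans ?_
      rw [sum_const, card_univ, Fintype.card_fin, nsmul_eq_mul]
      exact le_of_eq (by ring)

/-- Blocks `0, …, k-1`, the last `s` of which have been shifted by `k+1`. -/
def blk (k s : ℕ) : Fin k → ℕ := fun i => if k ≤ (i : ℕ) + s then (i : ℕ) + k + 1 else i

theorem blk_strictMono (k s : ℕ) : StrictMono (blk k s) := by
  intro i j hij
  have h : (i : ℕ) < j := hij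
  unfold blk
  split_ifs <;> omega

theorem blk_le (k s : ℕ) (i : Fin k) : blk k s i ≤ 2 * k := by
  have := i.2
  unfold blk
  split_ifs <;> omega

theorem move_chain (k : ℕ) (ε : ℝ) (hε : 0 < ε) : ∃ N0 : ℕ, ∀ N : ℕ, N0 ≤ N →
    ∀ {r : ℝ} (D : Model k r ((2 * k + 1) * N)) (s : ℕ), s ≤ k →
    D.Ex (fun ω => (dist' (arr (D.X ω) N ∅ (blk k 0)) (arr (D.X ω) N ∅ (blk k s)) : ℝ)) ≤
      s * ε * (N : ℝ) ^ k := by
  classical
  obtain ⟨N0, hN0⟩ := move_any k ε hε
  refine ⟨N0, fun N hN r D s => ?_⟩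
  induction s with
  | zero =>
    intro _
    simp only [dist'_self, Nat.cast_zero, zero_mul]
    exact le_of_eq (D.Ex_const 0)
  | succ s ih =>
    intro hs
    have ih' := ih (by omega)
    have hbound : ∀ s i, blk k s i * N + N ≤ (2 * k + 1) * N := fun s i => by
      have := Nat.mul_le_mul_right N (blk_le k s i)
      calc blk k s i * N + N ≤ 2 * k * N + N := by omega
        _ = (2 * k + 1) * N := by ring
    have hstep := hN0 N hN D ∅ (blk k s) (blk k (s + 1)) ⟨k - 1 - s, by omega⟩
      (fun i hi => ?_) ?_ (blk_strictMono k s) (blk_strictMono k (s + 1)) (by simp)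
      (hbound s) (hbound (s + 1))
    · have htri : ∀ ω, (dist' (arr (D.X ω) N ∅ (blk k 0)) (arr (D.X ω) N ∅ (blk k (s + 1))) : ℝ) ≤
          (dist' (arr (D.X ω) N ∅ (blk k 0)) (arr (D.X ω) N ∅ (blk k s)) : ℝ) +
          (dist' (arr (D.X ω) N ∅ (blk k s)) (arr (D.X ω) N ∅ (blk k (s + 1))) : ℝ) := fun ω => by
        exact_mod_cast dist'_triangle _ _ _
      refine (D.Ex_mono htri).trans ?_
      rw [D.Ex_add]
      push_cast
      linarith
    · have h1 : (i : ℕ) ≠ k - 1 - s := fun h => hi (Fin.ext h)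
      have := i.2
      unfold blk
      split_ifs <;> omega
    · unfold blk
      simp only
      split_ifs <;> omega

/-- A Boolean sequence of odd period has few descents. -/
theorem descents (m : ℕ) (Y : ℕ → Bool) :
    ∑ t ∈ range (2 * m + 1), (if Y t = true ∧ Y (t + 1) = false then (1 : ℝ) else 0) ≤
      m + (if Y 0 = true ∧ Y (2 * m + 1) = false then 1 else 0) := by
  induction m with
  | zero => simp only [Nat.mul_zero, Nat.zero_add, sum_range_one, Nat.cast_zero, zero_add, le_refl]
  | succ m ih =>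
    rw [show 2 * (m + 1) + 1 = 2 * m + 1 + 1 + 1 by ring, sum_range_succ, sum_range_succ]
    have key : ∀ a b c d : Bool, (if a = true ∧ b = false then (1 : ℝ) else 0) +
        (if b = true ∧ c = false then (1 : ℝ) else 0) +
        (if c = true ∧ d = false then (1 : ℝ) else 0) ≤
        1 + (if a = true ∧ d = false then (1 : ℝ) else 0) := by
      intro a b c d
      cases a <;> cases b <;> cases c <;> cases d <;> norm_num
    have := key (Y 0) (Y (2 * m + 1)) (Y (2 * m + 1 + 1)) (Y (2 * m + 1 + 1 + 1))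
    push_cast
    linarith

end Pool.Agent.TrotterWinkler
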