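import Pool.Agent.Lib.MP_4e1dcd_co.Basic
import Pool.Agent.Lib.MP_4e1dcd_co.Iter

/-!
From probability spaces with events indexed by `k`-sets to a finite spreadable model.
-/

set_option autoImplicit false

namespace Pool.Agent.TrotterWinkler

open MeasureTheory Filter Topology

/-- Patterns: truth values indexed by all subsets of `Fin M`. -/
abbrev Pat (M : ℕ) : Type := Finset (Fin M) → Bool

/-- A probability space with events indexed by the `k`-subsets of `[n]`, for each `n`. -/
structure Spaces (k : ℕ) (r : ℝ) where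
  Ω : ℕ → Type
  mΩ : ∀ n, MeasurableSpace (Ω n)
  P : ∀ n, @Measure (Ω n) (mΩ n)
  prob : ∀ n, @IsProbabilityMeasure (Ω n) (mΩ n) (P n)
  E : ∀ n, Finset ℕ → Set (Ω n)
  meas : ∀ n S, @MeasurableSet (Ω n) (mΩ n) (E n S)
  good : ∀ n, ∀ s : Fin (k + 1) → ℕ, StrictMono s → (∀ i, s i < n) →
    r ≤ (P n).real (E n (Finset.univ.image fun i : Fin k => s i.castSucc) ∩
      (E n (Finset.univ.image fun i : Fin k => s i.succ))ᶜ)

theorem exists_spaces {k : ℕ} {r : ℝ} (h : ∀ n, k + 1 ≤ n → r < f n k) :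
    Nonempty (Spaces k r) := by
  classical
  have h' : ∀ n, ∃ (Ω : Type) (_ : MeasurableSpace Ω) (P : Measure Ω)
      (_ : IsProbabilityMeasure P) (E : Finset ℕ → Set Ω), (∀ S, MeasurableSet (E S)) ∧
      ∀ s : Fin (k + 1) → ℕ, StrictMono s → (∀ i, s i < n) →
        r ≤ P.real (E (Finset.univ.image fun i : Fin k => s i.castSucc) ∩
          (E (Finset.univ.image fun i : Fin k => s i.succ))ᶜ) := by
    intro n
    by_cases hn : k + 1 ≤ n
    · obtain ⟨Ω, hΩ, P, hP, E, hE, hr⟩ := exists_of_lt_f (h n hn)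
      refine ⟨Ω, hΩ, P, hP, fun S => if hS : (Finset.univ.filter fun i : Fin n => (i : ℕ) ∈ S).card
        = k then E ⟨_, hS⟩ else ∅, fun S => ?_, fun s hs hsn => ?_⟩
      · dsimp only
        split_ifs
        · exact hE _
        · exact MeasurableSet.empty
      · let s' : Fin (k + 1) → Fin n := fun i => ⟨s i, hsn i⟩
        have hs' : StrictMono s' := fun i j hij => hs hij
        have h1 : (Finset.univ.filter fun i : Fin n => (i : ℕ) ∈
            (Finset.univ.image fun i : Fin k => s i.castSucc)) =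
            Finset.univ.image fun i : Fin k => s' i.castSucc := by
          ext i
          simp [s', Fin.ext_iff]
        have h2 : (Finset.univ.filter fun i : Fin n => (i : ℕ) ∈
            (Finset.univ.image fun i : Fin k => s i.succ)) =
            Finset.univ.image fun i : Fin k => s' i.succ := by
          ext i
          simp [s', Fin.ext_iff]
        have c1 := card_init hs'
        have c2 := card_tail hs'
        have c1' := c1
        have c2' := c2
        rw [← h1] at c1'
        rw [← h2] at c2'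
        dsimp only
        rw [dif_pos c1', dif_pos c2']
        have e1 : (⟨_, c1'⟩ : KSet n k) = ⟨_, c1⟩ := Subtype.ext h1
        have e2 : (⟨_, c2'⟩ : KSet n k) = ⟨_, c2⟩ := Subtype.ext h2
        rw [e1, e2]
        exact (hr _ _ ⟨s', hs', rfl, rfl⟩).le
    · refine ⟨ℝ, inferInstance, Measure.dirac 0, inferInstance, fun _ => ∅,
        fun _ => MeasurableSet.empty, fun s hs hsn => ?_⟩
      exfalso
      have hinj : Function.Injective (fun i => (⟨s i, hsn i⟩ : Fin n)) := fun i j hij => by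
        simp only [Fin.mk.injEq] at hij
        exact hs.injective hij
      have := Fintype.card_le_of_injective _ hinj
      simp only [Fintype.card_fin] at this
      exact hn this
  choose Ω hΩ P hP E hE hr using h'
  exact ⟨⟨Ω, hΩ, P, hP, E, hE, hr⟩⟩

namespace Spaces

variable {k : ℕ} {r : ℝ} (D : Spaces k r)

attribute [local instance] Spaces.mΩ Spaces.prob

/-- The pattern seen along the positions `t`. -/
noncomputable def pat (n : ℕ) {M : ℕ} (t : Fin M → ℕ) (ω : D.Ω n) : Pat M :=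
  fun S => by classical exact decide (ω ∈ D.E n (S.image t))

theorem pat_comp (n : ℕ) {M j : ℕ} (t : Fin M → ℕ) (σ : Fin j → Fin M) (ω : D.Ω n) :
    (fun S => D.pat n t ω (S.image σ)) = D.pat n (t ∘ σ) ω := by
  classical
  funext S
  simp only [pat, Finset.image_image]

/-- The expectation of a function of the pattern. -/
noncomputable def I (n : ℕ) {M : ℕ} (t : Fin M → ℕ) (ψ : Pat M → ℝ) : ℝ :=
  ∫ ω, ψ (D.pat n t ω) ∂(D.P n)

theorem measurable_pat (n : ℕ) {M : ℕ} (t : Fin M → ℕ) : Measurable (D.pat n t) := by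
  classical
  refine measurable_pi_lambda _ fun S => ?_
  refine measurable_to_bool ?_
  have : (fun ω => D.pat n t ω S) ⁻¹' {true} = D.E n (S.image t) := by
    ext ω
    simp [pat]
  rw [this]
  exact D.meas n _

theorem integrable_pat (n : ℕ) {M : ℕ} (t : Fin M → ℕ) (ψ : Pat M → ℝ) :
    Integrable (fun ω => ψ (D.pat n t ω)) (D.P n) := by
  have hm : Measurable (fun ω => ψ (D.pat n t ω)) :=
    (measurable_of_finite ψ).comp (D.measurable_pat n t)
  obtain ⟨C, hC⟩ : ∃ C, ∀ x, |ψ x| ≤ C :=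
    ⟨∑ x, |ψ x|, fun x => Finset.single_le_sum (f := fun x => |ψ x|) (fun _ _ => abs_nonneg _)
      (Finset.mem_univ x)⟩
  exact Integrable.of_bound hm.aestronglyMeasurable C
    (Filter.Eventually.of_forall fun ω => by simpa using hC _)

theorem I_add (n : ℕ) {M : ℕ} (t : Fin M → ℕ) (ψ χ : Pat M → ℝ) :
    D.I n t (fun x => ψ x + χ x) = D.I n t ψ + D.I n t χ :=
  integral_add (D.integrable_pat n t ψ) (D.integrable_pat n t χ)

theorem I_mul (n : ℕ) {M : ℕ} (t : Fin M → ℕ) (c : ℝ) (ψ : Pat M → ℝ) :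
    D.I n t (fun x => c * ψ x) = c * D.I n t ψ :=
  integral_const_mul c _

theorem I_one (n : ℕ) {M : ℕ} (t : Fin M → ℕ) : D.I n t (fun _ => 1) = 1 := by
  simp [I]

theorem I_nonneg (n : ℕ) {M : ℕ} (t : Fin M → ℕ) (ψ : Pat M → ℝ) (h : ∀ x, 0 ≤ ψ x) :
    0 ≤ D.I n t ψ :=
  integral_nonneg fun _ => h _

theorem abs_I_le (n : ℕ) {M : ℕ} (t : Fin M → ℕ) (ψ : Pat M → ℝ) :
    |D.I n t ψ| ≤ ∑ x, |ψ x| := by
  have h1 : ∀ x, |ψ x| ≤ ∑ x, |ψ x| := fun x =>
    Finset.single_le_sum (f := fun x => |ψ x|) (fun _ _ => abs_nonneg _) (Finset.mem_univ x)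
  have := norm_integral_le_of_norm_le_const (μ := D.P n) (f := fun ω => ψ (D.pat n t ω))
    (C := ∑ x, |ψ x|) (Filter.Eventually.of_forall fun ω => by simpa using h1 _)
  simpa [I] using this

/-- Ultralimit over `n` of the expectations. -/
noncomputable def J {M : ℕ} (t : Fin M → ℕ) (ψ : Pat M → ℝ) : ℝ := ulim fun n => D.I n t ψ

theorem abs_J_le {M : ℕ} (t : Fin M → ℕ) (ψ : Pat M → ℝ) : |D.J t ψ| ≤ ∑ x, |ψ x| :=
  abs_ulim_le fun n => D.abs_I_le n t ψ

theorem J_add {M : ℕ} (t : Fin M → ℕ) (ψ χ : Pat M → ℝ) :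
    D.J t (fun x => ψ x + χ x) = D.J t ψ + D.J t χ := by
  unfold J
  simp only [I_add]
  exact ulim_add (fun n => D.abs_I_le n t ψ) (fun n => D.abs_I_le n t χ)

theorem J_mul {M : ℕ} (t : Fin M → ℕ) (c : ℝ) (ψ : Pat M → ℝ) :
    D.J t (fun x => c * ψ x) = c * D.J t ψ := by
  unfold J
  simp only [I_mul]
  exact ulim_mul (fun n => D.abs_I_le n t ψ) c

theorem J_one {M : ℕ} (t : Fin M → ℕ) : D.J t (fun _ => 1) = 1 := by
  unfold J
  simp only [I_one]
  exact ulim_const 1

theorem J_comp {M j : ℕ} (t : Fin M → ℕ) (σ : Fin j → Fin M) (ψ : Pat j → ℝ) :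
    D.J t (fun x => ψ (fun S => x (S.image σ))) = D.J (t ∘ σ) ψ := by
  unfold J I
  simp only [pat_comp]

/-- The spreadable expectation. -/
noncomputable def EE {M : ℕ} (ψ : Pat M → ℝ) : ℝ := iter M fun t => D.J t ψ

theorem EE_add {M : ℕ} (ψ χ : Pat M → ℝ) :
    D.EE (fun x => ψ x + χ x) = D.EE ψ + D.EE χ := by
  unfold EE
  simp only [J_add]
  exact iter_add M _ _ _ _ (fun t => D.abs_J_le t ψ) (fun t => D.abs_J_le t χ)

theorem EE_mul {M : ℕ} (c : ℝ) (ψ : Pat M → ℝ) :
    D.EE (fun x => c * ψ x) = c * D.EE ψ := by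
  unfold EE
  simp only [J_mul]
  exact iter_mul M _ _ c (fun t => D.abs_J_le t ψ)

theorem EE_one {M : ℕ} : D.EE (fun _ : Pat M => (1 : ℝ)) = 1 := by
  unfold EE
  simp only [J_one]
  exact iter_const M 1

theorem EE_comp {M j : ℕ} (σ : Fin j → Fin M) (hσ : StrictMono σ) (ψ : Pat j → ℝ) :
    D.EE (fun x : Pat M => ψ (fun S => x (S.image σ))) = D.EE ψ := by
  unfold EE
  simp only [J_comp]
  exact iter_comp M j σ hσ (fun t => D.J t ψ)

theorem EE_nonneg {M : ℕ} (ψ : Pat M → ℝ) (h : ∀ x, 0 ≤ ψ x) : 0 ≤ D.EE ψ := by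
  refine le_iter M _ _ _ (fun t => D.abs_J_le t ψ) 0 fun t _ _ => ?_
  exact le_ulim (N := 0) (fun n => D.abs_I_le n t ψ) fun n _ => D.I_nonneg n t ψ h

theorem EE_sum {M : ℕ} {ι : Type} (s : Finset ι) (g : ι → Pat M → ℝ) :
    D.EE (fun x => ∑ i ∈ s, g i x) = ∑ i ∈ s, D.EE (g i) := by
  classical
  induction s using Finset.induction_on with
  | empty =>
    simp only [Finset.sum_empty]
    have := D.EE_mul 0 (fun _ : Pat M => (1 : ℝ))
    simpa using this
  | insert a s ha ih =>
    simp only [Finset.sum_insert ha]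
    rw [D.EE_add, ih]

/-- The weight of a pattern. -/
noncomputable def weight {M : ℕ} (x : Pat M) : ℝ := D.EE fun y => if y = x then 1 else 0

theorem weight_nonneg {M : ℕ} (x : Pat M) : 0 ≤ D.weight x :=
  D.EE_nonneg _ fun y => by split_ifs <;> norm_num

theorem EE_eq_sum {M : ℕ} (ψ : Pat M → ℝ) : D.EE ψ = ∑ x, D.weight x * ψ x := by
  have h : ψ = fun y => ∑ x, ψ x * (if y = x then 1 else 0) := by
    funext y
    simp
  rw [h, D.EE_sum]
  refine Finset.sum_congr rfl fun x _ => ?_
  rw [D.EE_mul]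
  simp [weight, mul_comm]

theorem sum_weight {M : ℕ} : ∑ x : Pat M, D.weight x = 1 := by
  have := D.EE_eq_sum (fun _ : Pat M => (1 : ℝ))
  rw [D.EE_one] at this
  simpa using this.symm

theorem EE_good {M : ℕ} (s : Fin (k + 1) → Fin M) (hs : StrictMono s) :
    r ≤ D.EE (fun x : Pat M => if x (Finset.univ.image fun i : Fin k => s i.castSucc) = true ∧
      x (Finset.univ.image fun i : Fin k => s i.succ) = false then 1 else 0) := by
  classical
  refine le_iter M _ _ _ (fun t => D.abs_J_le t _) 0 fun t ht _ => ?_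
  refine le_ulim (N := ∑ i, t i) (fun n => D.abs_I_le n t _) fun n hn => ?_
  have hg := D.good n (t ∘ s) (ht.comp hs) (fun i =>
    (Finset.single_le_sum (f := t) (fun _ _ => Nat.zero_le _) (Finset.mem_univ (s i))).trans_lt hn)
  refine hg.trans (le_of_eq ?_)
  unfold I
  rw [← integral_indicator_one]
  · congr 1
    funext ω
    simp only [pat, Finset.image_image, Function.comp_def, decide_eq_true_eq, decide_eq_false_iff_not,
      Set.indicator_apply, Set.mem_inter_iff, Set.mem_compl_iff, Pi.one_apply]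
  · exact (D.meas n _).inter (D.meas n _).compl

end Spaces

/-- A finite spreadable model: a finite probability space `Ω` with weights `w` carrying a random
array `X` indexed by finite sets of positions below `M`, whose law is invariant under monotone
changes of positions, and with `r ≤ Pr(X_A = 1, X_B = 0)` for all shift pairs. -/
structure Model (k : ℕ) (r : ℝ) (M : ℕ) where
  Ω : Type
  fin : Fintype Ω
  w : Ω → ℝ
  X : Ω → Finset ℕ → Bool
  w_nonneg : ∀ ω, 0 ≤ w ω
  w_sum : ∑ ω, w ω = 1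
  good : ∀ s : Fin (k + 1) → ℕ, StrictMono s → (∀ i, s i < M) →
    r ≤ ∑ ω, w ω * (if X ω (Finset.univ.image fun i : Fin k => s i.castSucc) = true ∧
      X ω (Finset.univ.image fun i : Fin k => s i.succ) = false then 1 else 0)
  spread : ∀ (T : Finset ℕ) (ρ : ℕ → ℕ), (∀ i ∈ T, i < M) → StrictMonoOn ρ T →
    (∀ i ∈ T, ρ i < M) → ∀ φ : (Finset ℕ → Bool) → ℝ,
    (∀ x y : Finset ℕ → Bool, (∀ S, S ⊆ T → x S = y S) → φ x = φ y) →
    ∑ ω, w ω * φ (X ω) = ∑ ω, w ω * φ (fun S => X ω (S.image ρ))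

theorem exists_model {k : ℕ} {r : ℝ} (h : ∀ n, k + 1 ≤ n → r < f n k) (M : ℕ) :
    Nonempty (Model k r M) := by
  classical
  obtain ⟨D⟩ := exists_spaces h
  refine ⟨⟨Pat M, inferInstance, D.weight,
    fun x S => x (Finset.univ.filter fun i : Fin M => (i : ℕ) ∈ S),
    D.weight_nonneg, D.sum_weight, ?_, ?_⟩⟩
  · intro s hs hsM
    let s' : Fin (k + 1) → Fin M := fun i => ⟨s i, hsM i⟩
    have hs' : StrictMono s' := fun i j hij => hs hij
    have h1 : (Finset.univ.filter fun i : Fin M => (i : ℕ) ∈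
        (Finset.univ.image fun i : Fin k => s i.castSucc)) =
        Finset.univ.image fun i : Fin k => s' i.castSucc := by
      ext i
      simp [s', Fin.ext_iff]
    have h2 : (Finset.univ.filter fun i : Fin M => (i : ℕ) ∈
        (Finset.univ.image fun i : Fin k => s i.succ)) =
        Finset.univ.image fun i : Fin k => s' i.succ := by
      ext i
      simp [s', Fin.ext_iff]
    rw [h1, h2]
    have := D.EE_good s' hs'
    rwa [D.EE_eq_sum] at this
  · intro T ρ hT hρ hρT φ hφ
    let σ : Fin T.card → Fin M := fun i => ⟨T.orderEmbOfFin rfl i, hT _ (T.orderEmbOfFin_mem rfl i)⟩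
    let τ : Fin T.card → Fin M := fun i =>
      ⟨ρ (T.orderEmbOfFin rfl i), hρT _ (T.orderEmbOfFin_mem rfl i)⟩
    have hσ : StrictMono σ := fun i j hij => (T.orderEmbOfFin rfl).strictMono hij
    have hτ : StrictMono τ := fun i j hij => hρ (T.orderEmbOfFin_mem rfl i)
      (T.orderEmbOfFin_mem rfl j) ((T.orderEmbOfFin rfl).strictMono hij)
    let ψ : Pat T.card → ℝ := fun y =>
      φ (fun S => y (Finset.univ.filter fun i => T.orderEmbOfFin rfl i ∈ S))
    have hsurj : ∀ a ∈ T, ∃ i, T.orderEmbOfFin rfl i = a := by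
      intro a ha
      have : a ∈ Set.range (T.orderEmbOfFin rfl) := by
        rw [Finset.range_orderEmbOfFin]
        exact ha
      exact this
    have h1 : ∀ x : Pat M, φ (fun S => x (Finset.univ.filter fun i : Fin M => (i : ℕ) ∈ S)) =
        ψ (fun S => x (S.image σ)) := by
      intro x
      refine hφ _ _ fun S hS => ?_
      show x _ = x _
      congr 1
      ext i
      simp only [Finset.mem_filter, Finset.mem_univ, true_and, Finset.mem_image, σ, Fin.ext_iff]
      constructor
      · intro hi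
        obtain ⟨j, hj⟩ := hsurj i (hS hi)
        exact ⟨j, by rwa [hj], hj⟩
      · rintro ⟨j, hj, hj'⟩
        rwa [hj'] at hj
    have h2 : ∀ x : Pat M, φ (fun S => x (Finset.univ.filter fun i : Fin M => (i : ℕ) ∈
        S.image ρ)) = ψ (fun S => x (S.image τ)) := by
      intro x
      refine hφ _ _ fun S hS => ?_
      show x _ = x _
      congr 1
      ext i
      simp only [Finset.mem_filter, Finset.mem_univ, true_and, Finset.mem_image, τ, Fin.ext_iff]
      constructor
      · rintro ⟨a, ha, hai⟩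
        obtain ⟨j, hj⟩ := hsurj a (hS ha)
        exact ⟨j, by rwa [hj], by rw [hj]; exact hai⟩
      · rintro ⟨j, hj, hj'⟩
        exact ⟨_, hj, hj'⟩
    simp only [h1, h2]
    rw [← D.EE_eq_sum (fun x => ψ (fun S => x (S.image σ))),
      ← D.EE_eq_sum (fun x => ψ (fun S => x (S.image τ))), D.EE_comp σ hσ, D.EE_comp τ hτ]

end Pool.Agent.TrotterWinkler
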