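import Pool.Agent.Lib.MP_4e1dcd_co.Basic

set_option autoImplicit false

namespace Pool.Agent.TrotterWinkler

open MeasureTheory Filter Topology

/-- The probability, under the uniform measure, of a decidable event on a finite type. -/
theorem uniformOn_real {Ω : Type} [Fintype Ω] [Nonempty Ω] [MeasurableSpace Ω]
    [MeasurableSingletonClass Ω] (p : Ω → Prop) [DecidablePred p] :
    (ProbabilityTheory.uniformOn (Set.univ : Set Ω)).real {ω | p ω} =
      ((Finset.univ.filter p).card : ℝ) / (Fintype.card Ω : ℝ) := by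
  classical
  have h : {ω | p ω} = ((Finset.univ.filter p : Finset Ω) : Set Ω) := by
    ext ω; simp
  rw [Measure.real, h, ProbabilityTheory.uniformOn_univ, Measure.count_apply_finset]
  rw [ENNReal.toReal_div, ENNReal.toReal_natCast, ENNReal.toReal_natCast]

/-- Splitting a coordinate function along an injection. -/
theorem card_comp_eq {n k m : ℕ} (s : Fin (k + 1) → Fin n) (hs : Function.Injective s)
    (G : (Fin (k + 1) → Fin m) → Prop) [DecidablePred G] :
    (Finset.univ.filter fun ω : Fin n → Fin m => G (ω ∘ s)).card =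
      (Finset.univ.filter G).card * m ^ (n - (k + 1)) := by
  classical
  let e : (Fin n → Fin m) ≃ (Fin (k + 1) → Fin m) × ({i // ¬ i ∈ Set.range s} → Fin m) :=
    (Equiv.piEquivPiSubtypeProd (fun i => i ∈ Set.range s) (fun _ => Fin m)).trans
      (Equiv.prodCongr (Equiv.arrowCongr (Equiv.ofInjective s hs).symm (Equiv.refl _))
        (Equiv.refl _))
  have he : ∀ ω, (e ω).1 = ω ∘ s := by
    intro ω
    funext j
    simp [e, Equiv.arrowCongr]
  have e2 : {ω : Fin n → Fin m // G (ω ∘ s)} ≃
      {w : Fin (k + 1) → Fin m // G w} × ({i // ¬ i ∈ Set.range s} → Fin m) :=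
    (Equiv.subtypeEquiv e (fun ω => by rw [he])).trans
      (Equiv.prodSubtypeFstEquivSubtypeProd (p := G))
  rw [← Fintype.card_subtype, ← Fintype.card_subtype, Fintype.card_congr e2, Fintype.card_prod,
    Fintype.card_fun, Fintype.card_fin]
  congr 2
  rw [Fintype.card_subtype_compl, Fintype.card_fin]
  congr 1
  have : Fintype.card {x // x ∈ Set.range s} = Fintype.card (Fin (k + 1)) :=
    Fintype.card_congr (Equiv.ofInjective s hs).symm
  rw [this, Fintype.card_fin]

/-- Lower bound from independent uniform types in `Fin m` and a `k`-ary predicate `F` on types. -/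
theorem types_le {k m : ℕ} (hm : 0 < m) (F : (Fin k → Fin m) → Bool) {n : ℕ} (hk : k + 1 ≤ n) :
    ((Finset.univ.filter fun w : Fin (k + 1) → Fin m =>
      F (fun i => w i.castSucc) = true ∧ ¬ F (fun i => w i.succ) = true).card : ℝ) /
      (m : ℝ) ^ (k + 1) ≤ f n k := by
  classical
  have : NeZero m := ⟨hm.ne'⟩
  refine le_f_of_forall hk (ProbabilityTheory.uniformOn (Set.univ : Set (Fin n → Fin m)))
    (fun S => {ω | F (fun i => ω (S.1.orderEmbOfFin S.2 i)) = true})
    (fun S => (Set.toFinite _).measurableSet) _ ?_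
  rintro ⟨A, hA⟩ ⟨B, hB⟩ ⟨s, hs, rfl, rfl⟩
  have h1 : (fun i : Fin k => s i.castSucc) =
      (Finset.univ.image (fun i : Fin k => s i.castSucc)).orderEmbOfFin hA :=
    Finset.orderEmbOfFin_unique hA (fun x => Finset.mem_image_of_mem _ (Finset.mem_univ _))
      (fun i j hij => hs (Fin.castSucc_lt_castSucc_iff.mpr hij))
  have h2 : (fun i : Fin k => s i.succ) =
      (Finset.univ.image (fun i : Fin k => s i.succ)).orderEmbOfFin hB :=
    Finset.orderEmbOfFin_unique hB (fun x => Finset.mem_image_of_mem _ (Finset.mem_univ _))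
      (fun i j hij => hs (Fin.succ_lt_succ_iff.mpr hij))
  have hset : ({ω : Fin n → Fin m | F (fun i => ω
        ((Finset.univ.image (fun i : Fin k => s i.castSucc)).orderEmbOfFin hA i)) = true} ∩
      {ω : Fin n → Fin m | F (fun i => ω
        ((Finset.univ.image (fun i : Fin k => s i.succ)).orderEmbOfFin hB i)) = true}ᶜ) =
      {ω | (fun w : Fin (k + 1) → Fin m =>
      F (fun i => w i.castSucc) = true ∧ ¬ F (fun i => w i.succ) = true) (ω ∘ s)} := by
    ext ω
    rw [← h1, ← h2]
    rfl
  rw [hset, uniformOn_real, card_comp_eq s hs.injective (fun w : Fin (k + 1) → Fin m =>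
      F (fun i => w i.castSucc) = true ∧ ¬ F (fun i => w i.succ) = true), Fintype.card_fun,
    Fintype.card_fin, Fintype.card_fin]
  have hm' : (m : ℝ) ≠ 0 := by positivity
  obtain ⟨d, rfl⟩ := Nat.exists_eq_add_of_le hk
  rw [Nat.add_sub_cancel_left]
  push_cast
  have : (m : ℝ) ^ d ≠ 0 := by positivity
  rw [pow_add (m : ℝ) (k + 1) d, mul_div_mul_right _ _ this]

end Pool.Agent.TrotterWinkler
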