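import Pool.Agent.Lib.MP_4e1dcd_co.Move

/-!
The upper bound `f(3) ≤ (5 + 4 √2) / 28`.
-/

set_option autoImplicit false

namespace Pool.Agent.TrotterWinkler

open Finset

/-- The sign of a truth value. -/
def sg (b : Bool) : ℝ := if b = true then 1 else -1

theorem sg_mul_self (b : Bool) : sg b * sg b = 1 := by
  cases b <;> norm_num [sg]

namespace Model

variable {r : ℝ} {M : ℕ} (D : Model 3 r M)

attribute [local instance] Model.fin

/-- The expectation of a function of the four triples of the first four positions. -/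
noncomputable def K4 (φ : Bool → Bool → Bool → Bool → ℝ) : ℝ :=
  D.Ex fun ω => φ (D.X ω {0, 1, 2}) (D.X ω {0, 1, 3}) (D.X ω {0, 2, 3}) (D.X ω {1, 2, 3})

theorem Ex_four (φ : Bool → Bool → Bool → Bool → ℝ) {a b c d : ℕ} (hab : a < b) (hbc : b < c)
    (hcd : c < d) (hd : d < M) :
    D.Ex (fun ω => φ (D.X ω {a, b, c}) (D.X ω {a, b, d}) (D.X ω {a, c, d}) (D.X ω {b, c, d})) =
      D.K4 φ := by
  classical
  have h := D.spread {0, 1, 2, 3}
    (fun i => if i = 0 then a else if i = 1 then b else if i = 2 then c else d)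
    (by
      intro i hi
      simp only [mem_insert, mem_singleton] at hi
      omega)
    (by
      intro i hi j hj hij
      simp only [coe_insert, coe_singleton, Set.mem_insert_iff, Set.mem_singleton_iff] at hi hj
      rcases hi with rfl | rfl | rfl | rfl <;> rcases hj with rfl | rfl | rfl | rfl <;>
        simp at hij ⊢ <;> omega)
    (by
      intro i hi
      simp only [mem_insert, mem_singleton] at hi
      rcases hi with rfl | rfl | rfl | rfl <;> simp <;> omega)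
    (fun x => φ (x {0, 1, 2}) (x {0, 1, 3}) (x {0, 2, 3}) (x {1, 2, 3}))
    (by
      intro x y hxy
      have h1 : x {0, 1, 2} = y {0, 1, 2} := hxy _ (by decide)
      have h2 : x {0, 1, 3} = y {0, 1, 3} := hxy _ (by decide)
      have h3 : x {0, 2, 3} = y {0, 2, 3} := hxy _ (by decide)
      have h4 : x {1, 2, 3} = y {1, 2, 3} := hxy _ (by decide)
      rw [h1, h2, h3, h4])
  unfold K4 Ex
  rw [h]
  refine sum_congr rfl fun ω _ => ?_
  simp [image_insert]

theorem Ex_three (φ : Bool → ℝ) {a b c : ℕ} (hab : a < b) (hbc : b < c) (hc : c < M) :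
    D.Ex (fun ω => φ (D.X ω {a, b, c})) = D.Ex (fun ω => φ (D.X ω {0, 1, 2})) := by
  classical
  have h := D.spread {0, 1, 2}
    (fun i => if i = 0 then a else if i = 1 then b else c)
    (by
      intro i hi
      simp only [mem_insert, mem_singleton] at hi
      omega)
    (by
      intro i hi j hj hij
      simp only [coe_insert, coe_singleton, Set.mem_insert_iff, Set.mem_singleton_iff] at hi hj
      rcases hi with rfl | rfl | rfl <;> rcases hj with rfl | rfl | rfl <;>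
        simp at hij ⊢ <;> omega)
    (by
      intro i hi
      simp only [mem_insert, mem_singleton] at hi
      rcases hi with rfl | rfl | rfl <;> simp <;> omega)
    (fun x => φ (x {0, 1, 2}))
    (by
      intro x y hxy
      have h1 : x {0, 1, 2} = y {0, 1, 2} := hxy _ (by decide)
      rw [h1])
  unfold Ex
  rw [h]
  refine sum_congr rfl fun ω _ => ?_
  simp [image_insert]

/-- The correlations of the four triples of a 4-set `a < b < c < d`, listed as
`abc, abd, acd, bcd`. -/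
noncomputable def K12 : ℝ := D.K4 fun x₁ x₂ _ _ => sg x₁ * sg x₂
noncomputable def K13 : ℝ := D.K4 fun x₁ _ x₃ _ => sg x₁ * sg x₃
noncomputable def K14 : ℝ := D.K4 fun x₁ _ _ x₄ => sg x₁ * sg x₄
noncomputable def K23 : ℝ := D.K4 fun _ x₂ x₃ _ => sg x₂ * sg x₃
noncomputable def K24 : ℝ := D.K4 fun _ x₂ _ x₄ => sg x₂ * sg x₄
noncomputable def K34 : ℝ := D.K4 fun _ _ x₃ x₄ => sg x₃ * sg x₄

theorem K4_mono {φ χ : Bool → Bool → Bool → Bool → ℝ} (h : ∀ a b c d, φ a b c d ≤ χ a b c d) :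
    D.K4 φ ≤ D.K4 χ := D.Ex_mono fun _ => h _ _ _ _

theorem K4_add (φ χ : Bool → Bool → Bool → Bool → ℝ) :
    D.K4 (fun a b c d => φ a b c d + χ a b c d) = D.K4 φ + D.K4 χ := D.Ex_add _ _

theorem K4_mul (t : ℝ) (φ : Bool → Bool → Bool → Bool → ℝ) :
    D.K4 (fun a b c d => t * φ a b c d) = t * D.K4 φ := D.Ex_mul _ _

theorem K4_const (t : ℝ) : D.K4 (fun _ _ _ _ => t) = t := D.Ex_const _

/-- A linear inequality between the products of four signs passes to the correlations. -/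
theorem K4_lin (t₀ t₁₂ t₁₃ t₁₄ t₂₃ t₂₄ t₃₄ : ℝ)
    (h : ∀ a b c d : Bool, 0 ≤ t₀ + (t₁₂ * (sg a * sg b) + (t₁₃ * (sg a * sg c) +
      (t₁₄ * (sg a * sg d) + (t₂₃ * (sg b * sg c) + (t₂₄ * (sg b * sg d) +
      t₃₄ * (sg c * sg d))))))) :
    0 ≤ t₀ + (t₁₂ * D.K12 + (t₁₃ * D.K13 + (t₁₄ * D.K14 + (t₂₃ * D.K23 + (t₂₄ * D.K24 +
      t₃₄ * D.K34))))) := by
  have h1 := D.K4_mono (φ := fun _ _ _ _ => 0) h
  rw [K4_const, K4_add, K4_add, K4_add, K4_add, K4_add, K4_add, K4_const] at h1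
  simp only [K4_mul] at h1
  exact h1

/-- The square over a pair of positions. -/
theorem square (N : ℕ) (hN : 0 < N) (hM : 3 * N + 2 ≤ M) (κ : ℝ) :
    -(2 * (2 + κ ^ 2)) / N ≤ D.K12 + κ ^ 2 * D.K23 + D.K34 + 2 * κ * (D.K13 + D.K24) +
      2 * D.K14 := by
  classical
  set A : Fin N → D.Ω → ℝ := fun v ω => sg (D.X ω {N, 2 * N + 1, 2 * N + 2 + (v : ℕ)}) with hA
  set B : Fin N → D.Ω → ℝ := fun v ω => sg (D.X ω {N, N + 1 + (v : ℕ), 2 * N + 1}) with hB
  set C : Fin N → D.Ω → ℝ := fun v ω => sg (D.X ω {(v : ℕ), N, 2 * N + 1}) with hC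
  have hAA : ∀ v w : Fin N, v < w → D.Ex (fun ω => A v ω * A w ω) = D.K12 := by
    intro v w hvw
    have h1 := v.2
    have h2 := w.2
    have h3 : (v : ℕ) < w := hvw
    exact D.Ex_four (fun x₁ x₂ _ _ => sg x₁ * sg x₂) (a := N) (b := 2 * N + 1)
      (c := 2 * N + 2 + v) (d := 2 * N + 2 + w) (by omega) (by omega) (by omega) (by omega)
  have hBB : ∀ v w : Fin N, v < w → D.Ex (fun ω => B v ω * B w ω) = D.K23 := by
    intro v w hvw
    have h1 := v.2
    have h2 := w.2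
    have h3 : (v : ℕ) < w := hvw
    exact D.Ex_four (fun _ x₂ x₃ _ => sg x₂ * sg x₃) (a := N) (b := N + 1 + v)
      (c := N + 1 + w) (d := 2 * N + 1) (by omega) (by omega) (by omega) (by omega)
  have hCC : ∀ v w : Fin N, v < w → D.Ex (fun ω => C v ω * C w ω) = D.K34 := by
    intro v w hvw
    have h1 := v.2
    have h2 := w.2
    have h3 : (v : ℕ) < w := hvw
    exact D.Ex_four (fun _ _ x₃ x₄ => sg x₃ * sg x₄) (a := (v : ℕ)) (b := w)
      (c := N) (d := 2 * N + 1) (by omega) (by omega) (by omega) (by omega)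
  have hAB : ∀ v w : Fin N, D.Ex (fun ω => B w ω * A v ω) = D.K13 := by
    intro v w
    have h1 := v.2
    have h2 := w.2
    exact D.Ex_four (fun x₁ _ x₃ _ => sg x₁ * sg x₃) (a := N) (b := N + 1 + w)
      (c := 2 * N + 1) (d := 2 * N + 2 + v) (by omega) (by omega) (by omega) (by omega)
  have hAC : ∀ v w : Fin N, D.Ex (fun ω => C w ω * A v ω) = D.K14 := by
    intro v w
    have h1 := v.2
    have h2 := w.2
    exact D.Ex_four (fun x₁ _ _ x₄ => sg x₁ * sg x₄) (a := (w : ℕ)) (b := N)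
      (c := 2 * N + 1) (d := 2 * N + 2 + v) (by omega) (by omega) (by omega) (by omega)
  have hBC : ∀ v w : Fin N, D.Ex (fun ω => C w ω * B v ω) = D.K24 := by
    intro v w
    have h1 := v.2
    have h2 := w.2
    exact D.Ex_four (fun _ x₂ _ x₄ => sg x₂ * sg x₄) (a := (w : ℕ)) (b := N)
      (c := N + 1 + v) (d := 2 * N + 1) (by omega) (by omega) (by omega) (by omega)
  have hsym : ∀ (G : Fin N → D.Ω → ℝ) (K : ℝ),
      (∀ v w : Fin N, v < w → D.Ex (fun ω => G v ω * G w ω) = K) →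
      ∀ v w : Fin N, v ≠ w → D.Ex (fun ω => G v ω * G w ω) = K := by
    intro G K h v w hvw
    rcases lt_or_gt_of_ne hvw with h1 | h1
    · exact h v w h1
    · have := h w v h1
      simpa only [mul_comm] using this
  have hone : ∀ v : Fin N, D.Ex (fun ω => A v ω * A v ω) = 1 ∧
      D.Ex (fun ω => B v ω * B v ω) = 1 ∧ D.Ex (fun ω => C v ω * C v ω) = 1 := by
    intro v
    refine ⟨?_, ?_, ?_⟩ <;>
    · rw [← D.Ex_const 1]
      congr 1
      funext ω
      exact sg_mul_self _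
  have hK : ∀ K : ℝ, K = D.K12 ∨ K = D.K23 ∨ K = D.K34 → -1 ≤ K := by
    have hb : ∀ a b : Bool, -1 ≤ sg a * sg b := by
      intro a b
      cases a <;> cases b <;> norm_num [sg]
    rintro K (rfl | rfl | rfl)
    · have := D.K4_mono (φ := fun _ _ _ _ => -1) (χ := fun x₁ x₂ _ _ => sg x₁ * sg x₂)
        fun _ _ _ _ => hb _ _
      rwa [K4_const] at this
    · have := D.K4_mono (φ := fun _ _ _ _ => -1) (χ := fun _ x₂ x₃ _ => sg x₂ * sg x₃)
        fun _ _ _ _ => hb _ _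
      rwa [K4_const] at this
    · have := D.K4_mono (φ := fun _ _ _ _ => -1) (χ := fun _ _ x₃ x₄ => sg x₃ * sg x₄)
        fun _ _ _ _ => hb _ _
      rwa [K4_const] at this
  set Q : ℝ := D.K12 + κ ^ 2 * D.K23 + D.K34 + 2 * κ * (D.K13 + D.K24) + 2 * D.K14 with hQ
  have hterm : ∀ v w : Fin N, D.Ex (fun ω => (A v ω + κ * B v ω + C v ω) *
      (A w ω + κ * B w ω + C w ω)) ≤ Q + if v = w then 2 * (2 + κ ^ 2) else 0 := by
    intro v w
    have hexp : (fun ω => (A v ω + κ * B v ω + C v ω) * (A w ω + κ * B w ω + C w ω)) =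
        fun ω => A v ω * A w ω + (κ ^ 2 * (B v ω * B w ω) + (C v ω * C w ω +
          (κ * (B w ω * A v ω) + (κ * (B v ω * A w ω) + (C w ω * A v ω + (C v ω * A w ω +
          (κ * (C w ω * B v ω) + κ * (C v ω * B w ω)))))))) := by
      funext ω
      ring
    rw [hexp, D.Ex_add, D.Ex_add, D.Ex_add, D.Ex_add, D.Ex_add, D.Ex_add, D.Ex_add, D.Ex_add,
      D.Ex_mul, D.Ex_mul, D.Ex_mul, D.Ex_mul, D.Ex_mul, hAB, hAB, hAC, hAC, hBC, hBC]
    split_ifs with h
    · subst h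
      obtain ⟨h1, h2, h3⟩ := hone v
      rw [h1, h2, h3]
      have h4 := hK _ (Or.inl rfl)
      have h5 := hK _ (Or.inr (Or.inl rfl))
      have h6 := hK _ (Or.inr (Or.inr rfl))
      nlinarith [sq_nonneg κ, mul_nonneg (sq_nonneg κ) (by linarith : 0 ≤ 1 + D.K23)]
    · rw [hsym A _ hAA v w h, hsym B _ hBB v w h, hsym C _ hCC v w h]
      rw [hQ]
      linarith
  have hsq : 0 ≤ D.Ex (fun ω => (∑ v, (A v ω + κ * B v ω + C v ω)) ^ 2) := by
    rw [← D.Ex_const 0]
    exact D.Ex_mono fun ω => sq_nonneg _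
  have hexp2 : (fun ω => (∑ v, (A v ω + κ * B v ω + C v ω)) ^ 2) = fun ω =>
      ∑ v, ∑ w, (A v ω + κ * B v ω + C v ω) * (A w ω + κ * B w ω + C w ω) := by
    funext ω
    rw [sq, sum_mul_sum]
  rw [hexp2, D.Ex_sum] at hsq
  simp only [D.Ex_sum] at hsq
  have hle := hsq.trans (sum_le_sum fun v _ => sum_le_sum fun w _ => hterm v w)
  simp only [sum_add_distrib, sum_const, card_univ, Fintype.card_fin, nsmul_eq_mul,
    sum_ite_eq, mem_univ, if_true] at hle
  have hNr : (0 : ℝ) < N := by exact_mod_cast hN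
  rw [div_le_iff₀ hNr]
  have h7 : 0 ≤ (N : ℝ) * (Q * N + 2 * (2 + κ ^ 2)) := by
    refine hle.trans (le_of_eq ?_)
    ring
  have h8 : 0 ≤ Q * N + 2 * (2 + κ ^ 2) := nonneg_of_mul_nonneg_right h7 hNr
  linarith

/-- The objective is an affine function of the correlation of the two extreme triples. -/
theorem good_le (hM : 4 ≤ M) : r ≤ (1 - D.K14) / 4 := by
  classical
  have h := D.good (fun i => (i : ℕ)) (fun i j hij => hij) (fun i => i.2.trans_le hM)
  have e1 : (univ.image fun i : Fin 3 => ((i.castSucc : Fin 4) : ℕ)) = {0, 1, 2} := by decide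
  have e2 : (univ.image fun i : Fin 3 => ((i.succ : Fin 4) : ℕ)) = {1, 2, 3} := by decide
  rw [e1, e2] at h
  refine h.trans ?_
  have hpt : ∀ ω, (if D.X ω {0, 1, 2} = true ∧ D.X ω {1, 2, 3} = false then (1 : ℝ) else 0) =
      1 / 4 + ((1 / 4) * sg (D.X ω {0, 1, 2}) + ((-(1 / 4)) * sg (D.X ω {1, 2, 3}) +
        (-(1 / 4)) * (sg (D.X ω {0, 1, 2}) * sg (D.X ω {1, 2, 3})))) := by
    intro ω
    cases D.X ω {0, 1, 2} <;> cases D.X ω {1, 2, 3} <;> norm_num [sg]
  have h1 : ∑ ω, D.w ω * (if D.X ω {0, 1, 2} = true ∧ D.X ω {1, 2, 3} = false then (1 : ℝ) else 0) =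
      D.Ex (fun ω => 1 / 4 + ((1 / 4) * sg (D.X ω {0, 1, 2}) + ((-(1 / 4)) *
        sg (D.X ω {1, 2, 3}) + (-(1 / 4)) * (sg (D.X ω {0, 1, 2}) * sg (D.X ω {1, 2, 3}))))) := by
    unfold Ex
    exact sum_congr rfl fun ω _ => by rw [hpt]
  rw [h1, D.Ex_add, D.Ex_add, D.Ex_add, D.Ex_mul, D.Ex_mul, D.Ex_mul, D.Ex_const,
    D.Ex_three sg (by norm_num : 1 < 2) (by norm_num : 2 < 3) (by omega)]
  have h2 : D.Ex (fun ω => sg (D.X ω {0, 1, 2}) * sg (D.X ω {1, 2, 3})) = D.K14 := rfl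
  rw [h2]
  linarith

include D in
theorem upper3 (N : ℕ) (hN : 0 < N) (hM : 3 * N + 2 ≤ M) :
    r ≤ (5 + 4 * Real.sqrt 2) / 28 + 1 / N := by
  set q := Real.sqrt 2 with hq
  have hqq : q * q = 2 := Real.mul_self_sqrt (by norm_num)
  have hq1 : 1.41 < q := by
    rw [hq]
    exact (Real.lt_sqrt (by norm_num)).mpr (by norm_num)
  have hq2 : q < 1.42 := by
    rw [hq]
    exact (Real.sqrt_lt' (by norm_num)).mpr (by norm_num)
  have hsq := D.square N hN hM (q - 1)
  have hgood := D.good_le (by omega)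
  -- z = (2 q - 1) / 7, l1 = (9 - 4 q) / 7, l2 = (8 q - 11) / 7
  have h1 := D.K4_lin 1 (-1) 0 1 0 (-1) 0 (by
    intro a b c d
    cases a <;> cases b <;> cases c <;> cases d <;> norm_num [sg])
  have h2 := D.K4_lin 1 0 (-1) 1 0 0 (-1) (by
    intro a b c d
    cases a <;> cases b <;> cases c <;> cases d <;> norm_num [sg])
  have h3 := D.K4_lin 1 0 0 0 (-1) 1 (-1) (by
    intro a b c d
    cases a <;> cases b <;> cases c <;> cases d <;> norm_num [sg])
  have h4 := D.K4_lin 1 (-1) 1 0 (-1) 0 0 (by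
    intro a b c d
    cases a <;> cases b <;> cases c <;> cases d <;> norm_num [sg])
  have hl1 : 0 ≤ (9 - 4 * q) / 7 / 2 := by norm_num at hq2 ⊢; linarith
  have hl2 : 0 ≤ (8 * q - 11) / 7 / 2 := by norm_num at hq1 ⊢; linarith
  have hz : 0 ≤ (2 * q - 1) / 7 := by norm_num at hq1 ⊢; linarith
  have m1 := mul_nonneg hl1 (add_nonneg h1 h2)
  have m2 := mul_nonneg hl2 (add_nonneg h3 h4)
  have m3 := mul_le_mul_of_nonneg_left hsq hz
  have hk2 : (q - 1) ^ 2 = 3 - 2 * q := by nlinarith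
  rw [hk2] at m3
  have hNr : (0 : ℝ) < N := by exact_mod_cast hN
  have herr : -(4 / (N : ℝ)) ≤ (2 * q - 1) / 7 * (-(2 * (2 + (3 - 2 * q))) / N) := by
    rw [neg_le_iff_add_nonneg]
    have : (2 * q - 1) / 7 * (-(2 * (2 + (3 - 2 * q))) / N) + 4 / (N : ℝ) =
        ((2 * q - 1) / 7 * (-(2 * (2 + (3 - 2 * q)))) + 4) / N := by ring
    rw [this]
    refine div_nonneg ?_ hNr.le
    norm_num at hq1 hq2
    nlinarith
  have key : -(4 / (N : ℝ)) ≤ D.K14 + 2 * ((2 * q - 1) / 7) := by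
    have hid : D.K14 + 2 * ((2 * q - 1) / 7) =
        (9 - 4 * q) / 7 / 2 * ((1 + (-1 * D.K12 + (0 * D.K13 + (1 * D.K14 + (0 * D.K23 +
          (-1 * D.K24 + 0 * D.K34)))))) + (1 + (0 * D.K12 + (-1 * D.K13 + (1 * D.K14 +
          (0 * D.K23 + (0 * D.K24 + -1 * D.K34))))))) +
        (8 * q - 11) / 7 / 2 * ((1 + (0 * D.K12 + (0 * D.K13 + (0 * D.K14 + (-1 * D.K23 +
          (1 * D.K24 + -1 * D.K34)))))) + (1 + (-1 * D.K12 + (1 * D.K13 + (0 * D.K14 +
          (-1 * D.K23 + (0 * D.K24 + 0 * D.K34))))))) +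
        (2 * q - 1) / 7 * (D.K12 + (3 - 2 * q) * D.K23 + D.K34 + 2 * (q - 1) *
          (D.K13 + D.K24) + 2 * D.K14) := by
      linear_combination ((4 / 7) * D.K23 - (4 / 7) * (D.K13 + D.K24)) * hqq
    rw [hid]
    linarith
  have h5 : r ≤ (1 + 2 * ((2 * q - 1) / 7) + 4 / N) / 4 := by linarith
  refine h5.trans (le_of_eq ?_)
  ring

end Model

/-- `f(3) ≤ (5 + 4 √2) / 28`. -/
theorem three_upper_sqrt {L : ℝ} (hge : ∀ n, 3 + 1 ≤ n → L ≤ f n 3) :
    L ≤ (5 + 4 * Real.sqrt 2) / 28 := by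
  refine le_of_forall_lt fun r hr => ?_
  obtain ⟨r', hr1, hr2⟩ := exists_between hr
  refine hr1.trans_le ?_
  refine le_of_forall_pos_le_add fun ε hε => ?_
  obtain ⟨N, hN⟩ := exists_nat_gt (1 / ε)
  have hN0 : 0 < N := by
    rcases Nat.eq_zero_or_pos N with h | h
    · rw [h] at hN
      have : (0 : ℝ) < 1 / ε := by positivity
      norm_num at hN
      linarith [inv_pos.mpr hε]
    · exact h
  obtain ⟨D⟩ := exists_model (k := 3) (r := r') (fun n hn => hr2.trans_le (hge n hn)) (3 * N + 2)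
  refine (D.upper3 N hN0 le_rfl).trans ?_
  have hNr : (0 : ℝ) < N := by exact_mod_cast hN0
  have : 1 / (N : ℝ) ≤ ε := by
    rw [div_le_iff₀ hNr]
    rw [div_lt_iff₀ hε] at hN
    linarith
  linarith

end Pool.Agent.TrotterWinkler
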